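import Pool.Agent.Helper18.UY.Vel

/-! Project EN (MP_9ee088_an): all but `C |a|^(-1/2) log |a|` of the entropy of the standard map `S_a` lives in one
ergodic component. Definitions and basic lemmas: zeros counted with multiplicity, components of the sets
`{u | ‖f u - f z‖ < R}`. -/

set_option autoImplicit false
open Set Metric Filter Topology

namespace Pool.Agent.Helper82.EN

/-- the order of `g` at `z` -/
noncomputable def od (g : ℂ → ℂ) (z : ℂ) : ENNReal := ((analyticOrderAt g z : ℕ∞) : ENNReal)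

/-- the number of zeros of `g` in `T`, counted with multiplicity -/
noncomputable def cz (g : ℂ → ℂ) (T : Set ℂ) : ENNReal := ∑' z : T, od g z

/-- the component of `{u | ‖f u - f z‖ < R}` which contains `z` -/
def cmp (f : ℂ → ℂ) (z : ℂ) (R : ℝ) : Set ℂ := connectedComponentIn {u | ‖f u - f z‖ < R} z

/-- the number of critical points of `f` in the components of radius `R` around the points of `S` -/
noncomputable def mm (f : ℂ → ℂ) (S : Set ℝ) (R : ℝ) : ENNReal :=
  cz (deriv f) (⋃ s ∈ S, cmp f (s : ℂ) R)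

/-- the largest number of points of `S` with disjoint components of radius `r` -/
noncomputable def pp (f : ℂ → ℂ) (S : Set ℝ) (r : ℝ) : ENNReal :=
  ⨆ (T : Finset ℝ) (_ : (T : Set ℝ) ⊆ S ∧ (T : Set ℝ).PairwiseDisjoint fun s => cmp f (s : ℂ) r),
    (T.card : ENNReal)

/-! ### Zeros -/

lemma cz_eq_indicator (g : ℂ → ℂ) (T : Set ℂ) : cz g T = ∑' z : ℂ, T.indicator (od g) z := by
  unfold cz
  rw [tsum_subtype T (od g)]

lemma od_zero {g : ℂ → ℂ} {z : ℂ} (h : g z ≠ 0) : od g z = 0 := by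
  have : analyticOrderAt g z = 0 := by
    by_cases ha : AnalyticAt ℂ g z
    · exact (ha.analyticOrderAt_eq_zero).2 h
    · exact analyticOrderAt_of_not_analyticAt ha
  unfold od
  rw [this]
  simp

lemma cz_mono (g : ℂ → ℂ) {T T' : Set ℂ} (h : T ⊆ T') : cz g T ≤ cz g T' :=
  ENNReal.tsum_mono_subtype (od g) h

lemma cz_empty (g : ℂ → ℂ) : cz g ∅ = 0 := by
  unfold cz
  simp

lemma cz_union_le (g : ℂ → ℂ) (T T' : Set ℂ) : cz g (T ∪ T') ≤ cz g T + cz g T' :=
  ENNReal.tsum_union_le (od g) _ _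

lemma cz_iUnion_le {ι : Type*} (g : ℂ → ℂ) (T : ι → Set ℂ) : cz g (⋃ i, T i) ≤ ∑' i, cz g (T i) :=
  ENNReal.tsum_iUnion_le_tsum (od g) _

lemma od_mul {f g : ℂ → ℂ} (hf : Differentiable ℂ f) (hg : Differentiable ℂ g) (z : ℂ) :
    od (fun z => f z * g z) z = od f z + od g z := by
  have h : analyticOrderAt (fun z => f z * g z) z = analyticOrderAt f z + analyticOrderAt g z :=
    analyticOrderAt_mul (hf.analyticAt _) (hg.analyticAt _)
  unfold od
  rw [h]
  exact ENat.toENNReal_add _ _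

lemma cz_mul {f g : ℂ → ℂ} (hf : Differentiable ℂ f) (hg : Differentiable ℂ g) (T : Set ℂ) :
    cz (fun z => f z * g z) T = cz f T + cz g T := by
  unfold cz
  rw [← ENNReal.tsum_add]
  exact tsum_congr fun z => od_mul hf hg _

lemma cz_congr_order {f g : ℂ → ℂ} {T : Set ℂ} (h : ∀ z ∈ T, od f z = od g z) : cz f T = cz g T := by
  unfold cz
  exact tsum_congr fun z => h z z.2

lemma cz_le_order {f g : ℂ → ℂ} {T : Set ℂ} {c : ENNReal} (h : ∀ z ∈ T, od f z ≤ c * od g z) :
    cz f T ≤ c * cz g T := by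
  unfold cz
  rw [← ENNReal.tsum_mul_left]
  exact ENNReal.tsum_le_tsum fun z => h z z.2

lemma cz_eq_zero {g : ℂ → ℂ} {T : Set ℂ} (h : ∀ z ∈ T, g z ≠ 0) : cz g T = 0 := by
  unfold cz
  rw [ENNReal.tsum_eq_zero]
  exact fun z => od_zero (h z z.2)

/-- only the zeros count -/
lemma cz_inter_zeros (g : ℂ → ℂ) (T : Set ℂ) : cz g (T ∩ {z | g z = 0}) = cz g T := by
  rw [cz_eq_indicator, cz_eq_indicator]
  refine tsum_congr fun z => ?_
  by_cases hT : z ∈ T
  · by_cases hz : g z = 0
    · rw [indicator_of_mem (show z ∈ T ∩ {z | g z = 0} from ⟨hT, hz⟩), indicator_of_mem hT]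
    · rw [indicator_of_notMem (fun h => hz h.2), indicator_of_mem hT, od_zero hz]
  · rw [indicator_of_notMem (fun h => hT h.1), indicator_of_notMem hT]

/-- a zero counts at least once -/
lemma one_le_od {g : ℂ → ℂ} (hg : Differentiable ℂ g) {z : ℂ} (hz : g z = 0) : 1 ≤ od g z := by
  have h1 : analyticOrderAt g z ≠ 0 := fun h => ((hg.analyticAt z).analyticOrderAt_eq_zero.1 h) hz
  have h2 : (1 : ℕ∞) ≤ analyticOrderAt g z := Order.one_le_iff_ne_zero.2 h1
  unfold od
  exact_mod_cast (ENat.toENNReal_le.2 h2)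

/-- disjoint sets -/
lemma cz_iUnion {ι : Type*} (g : ℂ → ℂ) {T : ι → Set ℂ} (h : univ.PairwiseDisjoint T) :
    cz g (⋃ i, T i) = ∑' i, cz g (T i) :=
  ENNReal.tsum_biUnion (f := od g) h

/-- counting component by component -/
lemma cz_comp_le {F T W P : Set ℂ} {g h : ℂ → ℂ} {c : ENNReal}
    (hT : T ⊆ ⋃ s ∈ P, connectedComponentIn F s)
    (hK : ∀ s ∈ P, cz g (T ∩ connectedComponentIn F s) ≤ c * cz h (connectedComponentIn F s))
    (hW : ∀ s ∈ P, connectedComponentIn F s ⊆ W) : cz g T ≤ c * cz h W := by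
  classical
  set 𝒦 : Set (Set ℂ) := (fun s => connectedComponentIn F s) '' P with h𝒦
  have h1 : T ⊆ ⋃ K : 𝒦, T ∩ (K : Set ℂ) := by
    intro z hz
    obtain ⟨s, hs, hzs⟩ := mem_iUnion₂.1 (hT hz)
    exact mem_iUnion.2 ⟨⟨_, mem_image_of_mem _ hs⟩, hz, hzs⟩
  have hdisj : univ.PairwiseDisjoint fun K : 𝒦 => (K : Set ℂ) := by
    rintro ⟨K, s, hs, rfl⟩ - ⟨K', s', hs', rfl⟩ - hne
    rw [Function.onFun, Set.disjoint_left]
    intro z hz hz'
    apply hne
    have e1 := connectedComponentIn_eq hz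
    have e2 := connectedComponentIn_eq hz'
    exact Subtype.ext (e1.trans e2.symm)
  have h2 : ∑' K : 𝒦, cz h (K : Set ℂ) = cz h (⋃ K : 𝒦, (K : Set ℂ)) := (cz_iUnion h hdisj).symm
  calc cz g T ≤ cz g (⋃ K : 𝒦, T ∩ (K : Set ℂ)) := cz_mono _ h1
    _ ≤ ∑' K : 𝒦, cz g (T ∩ (K : Set ℂ)) := cz_iUnion_le _ _
    _ ≤ ∑' K : 𝒦, c * cz h (K : Set ℂ) := by
        refine ENNReal.tsum_le_tsum ?_
        rintro ⟨K, s, hs, rfl⟩
        exact hK s hs
    _ = c * ∑' K : 𝒦, cz h (K : Set ℂ) := ENNReal.tsum_mul_left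
    _ = c * cz h (⋃ K : 𝒦, (K : Set ℂ)) := by rw [h2]
    _ ≤ c * cz h W := by
        gcongr
        refine cz_mono _ (iUnion_subset ?_)
        rintro ⟨K, s, hs, rfl⟩
        exact hW s hs

/-! ### Components -/

lemma mem_cmp (f : ℂ → ℂ) (z : ℂ) {R : ℝ} (hR : 0 < R) : z ∈ cmp f z R :=
  mem_connectedComponentIn (by simpa using hR)

lemma cmp_sub (f : ℂ → ℂ) (z : ℂ) (R : ℝ) : cmp f z R ⊆ {u | ‖f u - f z‖ < R} :=
  connectedComponentIn_subset _ _

lemma cmp_preconn (f : ℂ → ℂ) (z : ℂ) (R : ℝ) : IsPreconnected (cmp f z R) :=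
  isPreconnected_connectedComponentIn

lemma cmp_open {f : ℂ → ℂ} (hf : Continuous f) (z : ℂ) (R : ℝ) : IsOpen (cmp f z R) :=
  IsOpen.connectedComponentIn (isOpen_lt (by fun_prop) continuous_const)

lemma cmp_max {f : ℂ → ℂ} {z : ℂ} {R : ℝ} {W : Set ℂ} (hW : IsPreconnected W) (hz : z ∈ W)
    (h : ∀ u ∈ W, ‖f u - f z‖ < R) : W ⊆ cmp f z R :=
  hW.subset_connectedComponentIn hz h

lemma cmp_mono {f : ℂ → ℂ} {z : ℂ} {R R' : ℝ} (h : R ≤ R') : cmp f z R ⊆ cmp f z R' := by
  by_cases hR : 0 < R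
  · exact cmp_max (cmp_preconn f z R) (mem_cmp f z hR) fun u hu => (cmp_sub f z R hu).trans_le h
  · intro u hu
    have := cmp_sub f z R hu
    exact absurd ((norm_nonneg _).trans_lt this) hR

/-- the component around `z` with a larger radius contains the one around a point of it -/
lemma cmp_of_mem {f : ℂ → ℂ} {z z' : ℂ} {R R' r : ℝ} (hz' : z' ∈ cmp f z R)
    (hr : ‖f z' - f z‖ ≤ r) (h : R' + r ≤ R) : cmp f z' R' ⊆ cmp f z R := by
  by_cases hR' : 0 < R'
  · have h1 : z' ∈ cmp f z' R' := mem_cmp f z' hR'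
    have hsub : cmp f z' R' ⊆ {u | ‖f u - f z‖ < R} := by
      intro u hu
      have h2 := cmp_sub f z' R' hu
      have h3 : ‖f u - f z‖ ≤ ‖f u - f z'‖ + ‖f z' - f z‖ := norm_sub_le_norm_sub_add_norm_sub _ _ _
      simp only [mem_ofPred_eq] at h2 ⊢
      linarith
    unfold cmp
    rw [connectedComponentIn_eq hz']
    exact (cmp_preconn f z' R').subset_connectedComponentIn h1 hsub
  · intro u hu
    have := cmp_sub f z' R' hu
    exact absurd ((norm_nonneg _).trans_lt this) hR'

/-- a limit point of the component at distance `< R` belongs to the component -/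
lemma cmp_of_closure {f : ℂ → ℂ} (hf : Continuous f) {z u : ℂ} {R : ℝ} (hu : u ∈ closure (cmp f z R))
    (h : ‖f u - f z‖ < R) : u ∈ cmp f z R := by
  have hop : IsOpen {u | ‖f u - f z‖ < R} := isOpen_lt (by fun_prop) continuous_const
  obtain ⟨ε, hε, hball⟩ := Metric.isOpen_iff.1 hop u h
  obtain ⟨v, hv, hvu⟩ := Metric.mem_closure_iff.1 hu ε hε
  have h1 : v ∈ ball u ε := by rw [mem_ball']; exact hvu
  have h2 : ball u ε ⊆ connectedComponentIn {u | ‖f u - f z‖ < R} v :=
    (convex_ball u ε).isPreconnected.subset_connectedComponentIn h1 hball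
  unfold cmp
  rw [connectedComponentIn_eq hv]
  exact h2 (mem_ball_self hε)

lemma norm_le_of_closure_cmp {f : ℂ → ℂ} (hf : Continuous f) {z u : ℂ} {R : ℝ}
    (hu : u ∈ closure (cmp f z R)) : ‖f u - f z‖ ≤ R := by
  have hcl : IsClosed {u | ‖f u - f z‖ ≤ R} := isClosed_le (by fun_prop) continuous_const
  have h1 : cmp f z R ⊆ {u | ‖f u - f z‖ ≤ R} := fun v hv =>
    (show ‖f v - f z‖ ≤ R from le_of_lt (cmp_sub f z R hv))
  exact (closure_minimal h1 hcl) hu

lemma closure_cmp_sub {f : ℂ → ℂ} (hf : Continuous f) {z : ℂ} {R R' : ℝ} (h : R < R') (hR : 0 < R) :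
    closure (cmp f z R) ⊆ cmp f z R' :=
  cmp_max (cmp_preconn f z R).closure (subset_closure (mem_cmp f z hR))
    fun _ hu => (norm_le_of_closure_cmp hf hu).trans_lt h

/-- the frontier of a component of a closed set -/
lemma frontier_comp {F : Set ℂ} (hF : IsClosed F) {s z : ℂ} (hz : z ∈ frontier (connectedComponentIn F s)) :
    z ∈ connectedComponentIn F s ∧ z ∉ interior F := by
  have hcl : IsClosed (connectedComponentIn F s) := by
    by_cases hs : s ∈ F
    · refine isClosed_of_closure_subset ?_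
      exact (isPreconnected_connectedComponentIn.closure).subset_connectedComponentIn
        (subset_closure (mem_connectedComponentIn hs))
        (closure_minimal (connectedComponentIn_subset F s) hF)
    · rw [connectedComponentIn_eq_empty hs]
      exact isClosed_empty
  have hzK : z ∈ connectedComponentIn F s := hcl.frontier_subset hz
  refine ⟨hzK, fun hint => ?_⟩
  obtain ⟨ε, hε, hball⟩ := Metric.isOpen_iff.1 isOpen_interior z hint
  have h2 : ball z ε ⊆ connectedComponentIn F z :=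
    (convex_ball z ε).isPreconnected.subset_connectedComponentIn (mem_ball_self hε)
      (hball.trans interior_subset)
  rw [← connectedComponentIn_eq hzK] at h2
  have h3 : z ∈ interior (connectedComponentIn F s) :=
    mem_interior.2 ⟨ball z ε, h2, isOpen_ball, mem_ball_self hε⟩
  exact hz.2 h3

lemma isClosed_comp {F : Set ℂ} (hF : IsClosed F) (s : ℂ) : IsClosed (connectedComponentIn F s) := by
  by_cases hs : s ∈ F
  · refine isClosed_of_closure_subset ?_
    exact (isPreconnected_connectedComponentIn.closure).subset_connectedComponentIn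
      (subset_closure (mem_connectedComponentIn hs))
      (closure_minimal (connectedComponentIn_subset F s) hF)
  · rw [connectedComponentIn_eq_empty hs]
    exact isClosed_empty

end Pool.Agent.Helper82.EN
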