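import Pool.Agent.Helper82.EN.Mot
import Pool.Agent.Helper46.EN.HurwitzC
import Pool.Agent.Helper72.EN.Long

/-! Project EN: one step of the number of critical points.

`f = xc (k+2) = G ∘ xc (k+1) - xc k`, `G x = 2 x + a sin (2 π x)`. -/

set_option autoImplicit false
open Set Metric Filter Topology
open Helper95.EN

namespace Pool.Agent.Helper82.EN

open Pool.Agent.Helper18.UC (vv)
open Pool.Agent.Helper18.UY (xc)
open Pool.Agent.Helper72.EN

/-- the complex extension of `vv` -/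
noncomputable def vc (a : ℝ) (v : ℂ) : ℂ := 2 + 2 * Real.pi * a * Complex.cos (2 * Real.pi * v)

lemma vc_real (a x : ℝ) : vc a (x : ℂ) = (vv a x : ℂ) := by
  unfold vc vv
  push_cast
  rfl

lemma vc_diff (a : ℝ) : Differentiable ℂ (vc a) := by
  unfold vc
  fun_prop

lemma hasDerivAt_G (a : ℝ) (v : ℂ) :
    HasDerivAt (fun v : ℂ => 2 * v + a * Complex.sin (2 * Real.pi * v)) (vc a v) v := by
  have h1 : HasDerivAt (fun v : ℂ => 2 * Real.pi * v) (2 * Real.pi : ℂ) v := by
    simpa using (hasDerivAt_id v).const_mul (2 * Real.pi : ℂ)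
  have h2 := (h1.csin).const_mul (a : ℂ)
  have h3 := ((hasDerivAt_id v).const_mul (2 : ℂ)).add h2
  have e : vc a v = 2 * 1 + a * (Complex.cos (2 * Real.pi * v) * (2 * Real.pi)) := by
    unfold vc
    ring
  rw [e]
  exact h3

lemma hasDerivAt_vc (a : ℝ) (v : ℂ) :
    HasDerivAt (vc a) (-(4 * Real.pi ^ 2 * a * Complex.sin (2 * Real.pi * v))) v := by
  have h1 : HasDerivAt (fun v : ℂ => 2 * Real.pi * v) (2 * Real.pi : ℂ) v := by
    simpa using (hasDerivAt_id v).const_mul (2 * Real.pi : ℂ)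
  have h2 := ((h1.ccos).const_mul (2 * Real.pi * a : ℂ)).const_add 2
  have e : -(4 * Real.pi ^ 2 * a * Complex.sin (2 * Real.pi * v)) =
      2 * Real.pi * a * (-Complex.sin (2 * Real.pi * v) * (2 * Real.pi)) := by ring
  rw [e]
  exact h2

lemma norm_sin_le (w : ℂ) : ‖Complex.sin w‖ ≤ Real.exp |w.im| := by
  have h1 : Complex.sin w = (Complex.exp (-w * Complex.I) - Complex.exp (w * Complex.I)) * Complex.I / 2 := by
    rw [Complex.sin]
  rw [h1, norm_div, norm_mul, Complex.norm_I, mul_one]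
  have h2 : ‖Complex.exp (w * Complex.I)‖ = Real.exp (-w.im) := by
    rw [Complex.norm_exp]
    simp
  have h3 : ‖Complex.exp (-w * Complex.I)‖ = Real.exp (w.im) := by
    rw [Complex.norm_exp]
    simp
  have h4 : ‖Complex.exp (-w * Complex.I) - Complex.exp (w * Complex.I)‖ ≤
      Real.exp |w.im| + Real.exp |w.im| := by
    refine (norm_sub_le _ _).trans ?_
    rw [h2, h3]
    exact add_le_add (Real.exp_le_exp.2 (le_abs_self _)) (Real.exp_le_exp.2 (neg_le_abs _))
  have h5 : ‖(2 : ℂ)‖ = 2 := by simp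
  rw [h5, div_le_iff₀ (by norm_num)]
  linarith

/-- near a real point the function `vc` varies little -/
lemma vc_near {a u : ℝ} {w : ℂ} (hw : ‖w‖ ≤ 1 / 100) : ‖vc a (u + w) - vc a u‖ ≤ 44 * |a| * ‖w‖ := by
  have hbd : ∀ v ∈ segment ℝ (u : ℂ) (u + w), ‖-(4 * (Real.pi : ℂ) ^ 2 * a * Complex.sin (2 * Real.pi * v))‖ ≤
      44 * |a| := by
    intro v hv
    have hpi := Real.pi_lt_d2
    have hpi0 := Real.pi_pos
    have him : |(2 * Real.pi * v : ℂ).im| ≤ 7 / 100 := by
      obtain ⟨α, β, hα, hβ, hαβ, rfl⟩ := hv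
      have e1 : (2 * (Real.pi : ℂ) * (α • (u : ℂ) + β • ((u : ℂ) + w))) =
            ((2 * Real.pi * (α * u + β * u) : ℝ) : ℂ) + ((2 * Real.pi * β : ℝ) : ℂ) * w := by
        simp only [Complex.real_smul]
        push_cast
        ring
      rw [e1, Complex.add_im, Complex.ofReal_im, zero_add, Complex.im_ofReal_mul, abs_mul,
        abs_of_nonneg (by positivity)]
      have h1 : |w.im| ≤ 1 / 100 := (Complex.abs_im_le_norm w).trans hw
      have h2 : β ≤ 1 := by linarith
      calc 2 * Real.pi * β * |w.im| ≤ 2 * 3.15 * 1 * (1 / 100) := by gcongr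
        _ ≤ 7 / 100 := by norm_num
    have h1 := norm_sin_le (2 * Real.pi * v : ℂ)
    have h2 : Real.exp |(2 * Real.pi * v : ℂ).im| ≤ 1.08 := by
      refine (Real.exp_le_exp.2 him).trans ?_
      refine (Real.exp_bound_div_one_sub_of_interval (by norm_num) (by norm_num)).trans ?_
      norm_num
    rw [norm_neg, norm_mul, norm_mul, norm_mul, norm_pow, Complex.norm_real, Complex.norm_real,
      Real.norm_eq_abs, Real.norm_eq_abs, abs_of_pos hpi0]
    have h4 : ‖(4 : ℂ)‖ = 4 := by simp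
    rw [h4]
    have h5 : Real.pi ^ 2 ≤ 9.93 := by nlinarith
    have h6 : ‖Complex.sin (2 * Real.pi * v)‖ ≤ 1.08 := h1.trans h2
    calc 4 * Real.pi ^ 2 * |a| * ‖Complex.sin (2 * Real.pi * v)‖ ≤ 4 * 9.93 * |a| * 1.08 := by gcongr
      _ ≤ 44 * |a| := by nlinarith [abs_nonneg a]
  have := (convex_segment (u : ℂ) (u + w)).norm_image_sub_le_of_norm_hasDerivWithin_le
    (f := vc a) (f' := fun v => -(4 * (Real.pi : ℂ) ^ 2 * a * Complex.sin (2 * Real.pi * v)))
    (fun v _ => (hasDerivAt_vc a v).hasDerivWithinAt) hbd (left_mem_segment ℝ _ _) (right_mem_segment ℝ _ _)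
  simpa using this

/-- the zeros of `vc` are simple -/
lemma vc_simple {a : ℝ} (ha : 1 ≤ |a|) {v : ℂ} (hv : vc a v = 0) :
    -(4 * (Real.pi : ℂ) ^ 2 * a * Complex.sin (2 * Real.pi * v)) ≠ 0 := by
  have hpi : (Real.pi : ℂ) ≠ 0 := by exact_mod_cast Real.pi_ne_zero
  have ha0 : (a : ℂ) ≠ 0 := by
    intro h
    have : a = 0 := by exact_mod_cast h
    rw [this, abs_zero] at ha
    linarith
  intro h
  have hs : Complex.sin (2 * Real.pi * v) = 0 := by
    have h1 : (4 * (Real.pi : ℂ) ^ 2 * a) * Complex.sin (2 * Real.pi * v) = 0 := by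
      linear_combination -h
    rcases mul_eq_zero.1 h1 with h2 | h2
    · exfalso
      have : (4 * (Real.pi : ℂ) ^ 2 * a) ≠ 0 := mul_ne_zero (mul_ne_zero (by norm_num) (pow_ne_zero _ hpi)) ha0
      exact this h2
    · exact h2
  have h2 := Complex.sin_sq_add_cos_sq (2 * Real.pi * v)
  rw [hs] at h2
  unfold vc at hv
  have h3 : (2 * Real.pi * a * Complex.cos (2 * Real.pi * v)) = -2 := by linear_combination hv
  have h4 : (2 * Real.pi * a : ℂ) ^ 2 = 4 := by
    have : (2 * Real.pi * a * Complex.cos (2 * Real.pi * v)) ^ 2 = 4 := by rw [h3]; norm_num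
    have h5 : Complex.cos (2 * Real.pi * v) ^ 2 = 1 := by linear_combination h2
    rw [mul_pow, h5, mul_one] at this
    exact this
  have h6 : (2 * Real.pi * a) ^ 2 = 4 := by exact_mod_cast h4
  have h7 := Real.pi_gt_three
  have h8 : (2 * Real.pi * a) ^ 2 = 4 * Real.pi ^ 2 * |a| ^ 2 := by rw [sq_abs]; ring
  rw [h8] at h6
  have h9 : 9 ≤ Real.pi ^ 2 := by nlinarith
  have h10 : 1 ≤ |a| ^ 2 := one_le_pow₀ ha
  nlinarith

/-- admissible radii -/
structure Rad2 (a r : ℝ) : Prop where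
  big : 128 ≤ r * |a|
  le : 20000 * r ≤ |a|
  a1 : 20000 ≤ |a|

lemma Rad2.rad {a r : ℝ} (h : Rad2 a r) : Rad a r where
  big := by linarith [h.big]
  le := by
    have h1 := h.big
    have h2 := h.a1
    have h3 := h.le
    have : 0 < r := by
      by_contra hcon
      push Not at hcon
      nlinarith
    linarith
  a1 := by linarith [h.a1]

lemma Rad2.of_one_le {a r : ℝ} (hr : 1 ≤ r) (ha : 20000 * r ≤ |a|) : Rad2 a r where
  big := by nlinarith
  le := ha
  a1 := by linarith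

section step

variable {a b t r : ℝ}

/-- the main part of `xc (k + 2)` -/
noncomputable def gg (a b t : ℝ) (k : ℕ) (z : ℂ) : ℂ :=
  2 * xc a b t (k + 1) z + a * Complex.sin (2 * Real.pi * xc a b t (k + 1) z)

lemma gg_diff (hb : 0 ≤ b) (hb1 : b ≤ 1) (k : ℕ) : Differentiable ℂ (gg a b t k) := by
  have := (orb_xc (a := a) (t := t) hb hb1).diff (k + 1)
  unfold gg
  fun_prop

lemma xc_split (a b t : ℝ) (k : ℕ) :
    xc a b t (k + 2) = fun z => gg a b t k z + (fun z => -xc a b t k z) z := by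
  ext z
  rw [xc]
  unfold gg
  ring

lemma deriv_gg (hb : 0 ≤ b) (hb1 : b ≤ 1) (k : ℕ) :
    deriv (gg a b t k) = fun z => vc a (xc a b t (k + 1) z) * deriv (xc a b t (k + 1)) z := by
  ext z
  have h1 := ((orb_xc (a := a) (t := t) hb hb1).diff (k + 1) z).hasDerivAt
  exact ((hasDerivAt_G a (xc a b t (k + 1) z)).comp z h1).deriv

/-- the components of `gg` are inside small components of `xc (k+1)` -/
lemma gg_sub (hb : 0 ≤ b) (hb1 : b ≤ 1) (hr : Rad2 a r) (x : ℝ) (k : ℕ) :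
    cmp (gg a b t k) (x : ℂ) (r + 2 * r) ⊆ cmp (xc a b t (k + 1)) (x : ℂ) √(2 * r / |a|) := by
  have hO := orb_xc (a := a) (t := t) hb hb1
  have ha0 : 0 < |a| := by linarith [hr.a1]
  have hr0 := hr.rad.pos
  obtain ⟨u, hu⟩ := hO.real x (k + 1)
  obtain ⟨τ, hτ0, hτ, hc⟩ := circG (R := 3 / 2 * r) (a := a) (by linarith) (by linarith [hr.le])
    (by linarith [hr.a1]) u
  have h1 : cmp (gg a b t k) (x : ℂ) (r + 2 * r) ⊆ cmp (xc a b t (k + 1)) (x : ℂ) τ := by
    refine comp_sub_of_frontier (cmp_open (hO.diff _).continuous _ _) (mem_cmp _ _ hτ0)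
      (by rw [sub_self, norm_zero]; linarith) fun z hz => ?_
    have h2 : ‖xc a b t (k + 1) z - xc a b t (k + 1) x‖ = τ :=
      Pool.Agent.Helper72.EN.frontier_comp (hO.diff _).continuous hz
    have h3 := hc (xc a b t (k + 1) z - u) (by rw [← hu]; exact h2)
    have h4 : (u : ℂ) + (xc a b t (k + 1) z - u) = xc a b t (k + 1) z := by ring
    rw [h4] at h3
    have h5 : gg a b t k z - gg a b t k x = (2 * xc a b t (k + 1) z +
        a * Complex.sin (2 * Real.pi * xc a b t (k + 1) z)) -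
        (2 * (u : ℂ) + a * Complex.sin (2 * Real.pi * (u : ℂ))) := by
      unfold gg
      rw [hu]
    rw [h5]
    linarith
  refine h1.trans (cmp_mono (hτ.trans (Real.sqrt_le_sqrt ?_)))
  gcongr
  linarith

lemma sqrt_le_self (hr : Rad2 a r) : √(2 * r / |a|) ≤ 1 / 100 ∧ √(2 * r / |a|) ≤ r / 8 := by
  have ha0 : 0 < |a| := by linarith [hr.a1]
  have hr0 := hr.rad.pos
  constructor
  · rw [show (1 / 100 : ℝ) = √((1 / 100) ^ 2) from (Real.sqrt_sq (by norm_num)).symm]
    apply Real.sqrt_le_sqrt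
    rw [div_le_iff₀ ha0]
    linarith [hr.le]
  · rw [Real.sqrt_le_left (by linarith), div_le_iff₀ ha0]
    have := hr.big
    nlinarith

lemma hh_small (hb : 0 ≤ b) (hb1 : b ≤ 1) (hr : Rad2 a r) (x : ℝ) (k : ℕ) {z : ℂ}
    (hz : z ∈ cmp (gg a b t k) (x : ℂ) (r + 2 * r)) :
    ‖(fun z => -xc a b t k z) z - (fun z => -xc a b t k z) x‖ ≤ r := by
  have hO := orb_xc (a := a) (t := t) hb hb1
  have h1 := gg_sub (t := t) hb hb1 hr x k hz
  obtain ⟨h2, h3'⟩ := sqrt_le_self hr
  have hr0 := hr.rad.pos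
  have h3 : √(2 * r / |a|) ≤ r := by linarith
  have e : ‖(fun z => -xc a b t k z) z - (fun z => -xc a b t k z) x‖ = ‖xc a b t k z - xc a b t k x‖ := by
    simp only
    rw [← norm_neg]
    congr 1
    ring
  rw [e]
  rcases k with _ | k
  · have h4 : ‖xc a b t (0 + 1) z - xc a b t (0 + 1) x‖ < √(2 * r / |a|) := cmp_sub _ _ _ h1
    have h5 : xc a b t (0 + 1) z - xc a b t (0 + 1) x = z - x := by
      rw [zero_add, xc]
    rw [h5] at h4
    have h6 : xc a b t 0 z - xc a b t 0 x = (b : ℂ) * (z - x) := by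
      rw [xc]
      ring
    rw [h6, norm_mul, Complex.norm_real, Real.norm_eq_abs, abs_of_nonneg hb]
    have : b * ‖z - x‖ ≤ 1 * ‖z - x‖ := mul_le_mul_of_nonneg_right hb1 (norm_nonneg _)
    linarith
  · have h4 : z ∈ cp (xc a b t) r (k + 2) x := (cmp_mono h3) h1
    have h5 := smallG hO hr.rad x k h4
    have h6 : √(r / |a|) ≤ √(2 * r / |a|) := by
      apply Real.sqrt_le_sqrt
      gcongr
      linarith
    linarith

theorem step_mm (hb : 0 ≤ b) (hb1 : b ≤ 1) (hr : Rad2 a r)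
    {S : Set ℝ} (hS : S ⊆ Icc 0 1) (k : ℕ) :
    mm (xc a b t (k + 2)) S r ≤
      cz (deriv (gg a b t k)) (⋃ x ∈ S, cmp (xc a b t (k + 1)) (x : ℂ) √(2 * r / |a|)) := by
  have hO := orb_xc (a := a) (t := t) hb hb1
  obtain ⟨h2, h3'⟩ := sqrt_le_self hr
  have hr0 := hr.rad.pos
  have h3 : √(2 * r / |a|) ≤ r := by linarith
  have h1 := mot_of_hurwitz (S := S) (R := r) (q := r) (M := 1 + r) Pool.Agent.Helper46.EN.hurwitzStatement (gg_diff (a := a) (t := t) hb hb1 k)
    (hO.diff k).neg (by linarith) (by linarith) (fun x _ z hz => hh_small hb hb1 hr x k hz)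
    (fun x hx => by
      refine (gg_sub hb hb1 hr x k).trans ((cmp_mono h3).trans ?_)
      refine (cp_sub_ballG hO hr.rad x k).trans fun z hz => ?_
      rw [mem_ball, dist_eq_norm] at hz
      rw [mem_closedBall_zero_iff]
      have h4 : ‖(x : ℂ)‖ ≤ 1 := by
        rw [Complex.norm_real, Real.norm_eq_abs, abs_le]
        constructor <;> linarith [(hS hx).1, (hS hx).2]
      calc ‖z‖ = ‖(z - x) + x‖ := by rw [sub_add_cancel]
        _ ≤ ‖z - x‖ + ‖(x : ℂ)‖ := norm_add_le _ _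
        _ ≤ 1 + r := by linarith)
  unfold mm
  rw [xc_split]
  exact h1.trans (cz_mono _ (iUnion₂_mono fun x _ => gg_sub hb hb1 hr x k))

/-- outside the critical zone no critical point is created -/
theorem out_step (hb : 0 ≤ b) (hb1 : b ≤ 1) (hr : Rad2 a r)
    {S : Set ℝ} (hS : S ⊆ Icc 0 1) (k : ℕ)
    (hout : ∀ x ∈ S, 64 * √(r * |a|) ≤ ‖vc a (xc a b t (k + 1) (x : ℂ))‖) :
    mm (xc a b t (k + 2)) S r ≤ mm (xc a b t (k + 1)) S r := by
  have hO := orb_xc (a := a) (t := t) hb hb1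
  have ha0 : 0 < |a| := by linarith [hr.a1]
  obtain ⟨h2, h3'⟩ := sqrt_le_self hr
  have hr0 := hr.rad.pos
  have h3 : √(2 * r / |a|) ≤ r := by linarith
  refine (step_mm hb hb1 hr hS k).trans ?_
  have hd : Differentiable ℂ (deriv (xc a b t (k + 1))) := deriv_diff (hO.diff _)
  have hv : Differentiable ℂ fun z => vc a (xc a b t (k + 1) z) := (vc_diff a).comp (hO.diff _)
  rw [deriv_gg hb hb1, cz_mul hv hd, cz_eq_zero, zero_add]
  · exact cz_mono _ (iUnion₂_mono fun x _ => cmp_mono h3)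
  · intro z hz h0
    obtain ⟨x, hx, hzx⟩ := mem_iUnion₂.1 hz
    obtain ⟨u, hu⟩ := hO.real x (k + 1)
    have h4 : ‖xc a b t (k + 1) z - u‖ < √(2 * r / |a|) := by
      rw [← hu]
      exact cmp_sub _ _ _ hzx
    have h5 := vc_near (a := a) (u := u) (w := xc a b t (k + 1) z - u) (by linarith)
    have h6 : (u : ℂ) + (xc a b t (k + 1) z - u) = xc a b t (k + 1) z := by ring
    rw [h6, h0, zero_sub, norm_neg] at h5
    have h7 := hout x hx
    rw [hu] at h7
    have h8 : |a| * √(2 * r / |a|) = √2 * √(r * |a|) := by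
      have e1 : √(2 * r / |a|) = √2 * √(r * |a|) / |a| := by
        rw [← Real.sqrt_mul (by norm_num), show 2 * r / |a| = (2 * (r * |a|)) / |a| ^ 2 by field_simp,
          Real.sqrt_div (by positivity), Real.sqrt_sq ha0.le]
      rw [e1]
      field_simp
    have h9 : √2 < 1.4143 := by
      rw [Real.sqrt_lt' (by norm_num)]
      norm_num
    have h10 : 0 < √(r * |a|) := Real.sqrt_pos.2 (by positivity)
    have h11 : 44 * |a| * ‖xc a b t (k + 1) z - u‖ < 44 * (√2 * √(r * |a|)) := by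
      rw [← h8]
      have : 44 * |a| * ‖xc a b t (k + 1) z - u‖ < 44 * |a| * √(2 * r / |a|) :=
        mul_lt_mul_of_pos_left h4 (by positivity)
      linarith
    nlinarith

/-- order of a composition with a function with simple zeros -/
lemma od_vc (ha : 1 ≤ |a|) {f : ℂ → ℂ} (hf : Differentiable ℂ f) {z : ℂ} (hz : vc a (f z) = 0) :
    od (fun z => vc a (f z)) z = 1 + od (deriv f) z := by
  have hd := deriv_diff hf
  have hF : Differentiable ℂ fun z => vc a (f z) := (vc_diff a).comp hf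
  have h1 := (hF.analyticAt z).analyticOrderAt_deriv_add_one
  have h2 : (fun x => (fun z => vc a (f z)) x - (fun z => vc a (f z)) z) = fun z => vc a (f z) := by
    ext x
    simp only
    rw [hz, sub_zero]
  rw [h2] at h1
  have h3 : deriv (fun z => vc a (f z)) =
      fun z => (-(4 * (Real.pi : ℂ) ^ 2 * a * Complex.sin (2 * Real.pi * f z))) * deriv f z := by
    ext x
    exact ((hasDerivAt_vc a (f x)).comp x (hf x).hasDerivAt).deriv
  have hu : Differentiable ℂ fun z => -(4 * (Real.pi : ℂ) ^ 2 * a * Complex.sin (2 * Real.pi * f z)) := by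
    fun_prop
  have h4 : od (deriv fun z => vc a (f z)) z = od (deriv f) z := by
    rw [h3, od_mul hu hd]
    have h5 : od (fun z => -(4 * (Real.pi : ℂ) ^ 2 * a * Complex.sin (2 * Real.pi * f z))) z = 0 :=
      od_zero (vc_simple ha hz)
    rw [h5, zero_add]
  rw [← h4]
  unfold od
  rw [← h1]
  rw [add_comm]
  simp

/-- the general step -/
theorem in_pre (hb : 0 ≤ b) (hb1 : b ≤ 1) (hr : Rad2 a r)
    {S : Set ℝ} (hS : S ⊆ Icc 0 1) (k : ℕ) {Y : Set ℂ}
    (hY : Y = {z | z ∈ (⋃ x ∈ S, cmp (xc a b t (k + 1)) (x : ℂ) √(2 * r / |a|)) ∧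
      vc a (xc a b t (k + 1) z) = 0}) :
    mm (xc a b t (k + 2)) S r ≤ 2 * mm (xc a b t (k + 1)) S r + ((Y.encard : ℕ∞) : ENNReal) := by
  have hO := orb_xc (a := a) (t := t) hb hb1
  have ha0 : 0 < |a| := by linarith [hr.a1]
  obtain ⟨h2, h3'⟩ := sqrt_le_self hr
  have hr0 := hr.rad.pos
  have h3 : √(2 * r / |a|) ≤ r := by linarith
  refine (step_mm hb hb1 hr hS k).trans ?_
  have hd : Differentiable ℂ (deriv (xc a b t (k + 1))) := deriv_diff (hO.diff _)
  have hv : Differentiable ℂ fun z => vc a (xc a b t (k + 1) z) := (vc_diff a).comp (hO.diff _)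
  set O : Set ℂ := ⋃ x ∈ S, cmp (xc a b t (k + 1)) (x : ℂ) √(2 * r / |a|) with hOd
  have hOm : O ⊆ ⋃ x ∈ S, cmp (xc a b t (k + 1)) (x : ℂ) r := iUnion₂_mono fun x _ => cmp_mono h3
  rw [deriv_gg hb hb1, cz_mul hv hd]
  have h5 : cz (fun z => vc a (xc a b t (k + 1) z)) O ≤ ((Y.encard : ℕ∞) : ENNReal) + cz (deriv (xc a b t (k + 1))) O := by
    rw [← cz_inter_zeros]
    have e1 : O ∩ {z | vc a (xc a b t (k + 1) z) = 0} = Y := by
      rw [hY]
      rfl
    rw [e1]
    have e2 : cz (fun z => vc a (xc a b t (k + 1) z)) Y = ∑' z : Y, (1 + od (deriv (xc a b t (k + 1))) z) := by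
      unfold cz
      refine tsum_congr fun z => od_vc (by linarith [hr.a1]) (hO.diff _) ?_
      have h7 : ∀ y ∈ Y, vc a (xc a b t (k + 1) y) = 0 := by
        rw [hY]
        exact fun y hy => hy.2
      exact h7 z z.2
    rw [e2, ENNReal.tsum_add]
    refine add_le_add ?_ ?_
    · rw [ENNReal.tsum_const, mul_one]
      rfl
    · refine cz_mono _ ?_
      rw [hY]
      exact fun z hz => hz.1
  have h6 : cz (deriv (xc a b t (k + 1))) O ≤ mm (xc a b t (k + 1)) S r := cz_mono _ hOm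
  calc cz (fun z => vc a (xc a b t (k + 1) z)) O + cz (deriv (xc a b t (k + 1))) O ≤
      (((Y.encard : ℕ∞) : ENNReal) + cz (deriv (xc a b t (k + 1))) O) + cz (deriv (xc a b t (k + 1))) O := by
        gcongr
    _ ≤ (((Y.encard : ℕ∞) : ENNReal) + mm (xc a b t (k + 1)) S r) + mm (xc a b t (k + 1)) S r := by gcongr
    _ = 2 * mm (xc a b t (k + 1)) S r + ((Y.encard : ℕ∞) : ENNReal) := by ring

end step

end Pool.Agent.Helper82.EN
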