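import Pool.Agent.Helper82.EN.OutIn

/-! Project EN: the zeros of `vc` are real and few in every disc. -/

set_option autoImplicit false
open Set Metric Filter Topology

namespace Pool.Agent.Helper82.EN

private lemma int_card (y ρ : ℝ) (N : ℕ) (hN : 2 * ρ + 1 ≤ N) :
    {k : ℤ | |(k : ℝ) - y| < ρ}.encard ≤ N := by
  have hsub : {k : ℤ | |(k : ℝ) - y| < ρ} ⊆ (Finset.Icc ⌈y - ρ⌉ ⌊y + ρ⌋ : Finset ℤ) := by
    intro k hk
    rw [Finset.coe_Icc, mem_Icc]
    have := abs_lt.1 (show |(k : ℝ) - y| < ρ from hk)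
    exact ⟨Int.ceil_le.2 (by linarith), Int.le_floor.2 (by linarith)⟩
  refine (encard_le_encard hsub).trans ?_
  rw [encard_coe_eq_coe_finsetCard, Int.card_Icc]
  have h1 : ((⌊y + ρ⌋ + 1 - ⌈y - ρ⌉).toNat : ℝ) ≤ N := by
    rcases le_or_gt 0 (⌊y + ρ⌋ + 1 - ⌈y - ρ⌉) with h | h
    · have e : ((⌊y + ρ⌋ + 1 - ⌈y - ρ⌉).toNat : ℝ) = ((⌊y + ρ⌋ + 1 - ⌈y - ρ⌉ : ℤ) : ℝ) := by
        exact_mod_cast Int.toNat_of_nonneg h
      rw [e]
      push_cast
      have h1 := Int.floor_le (y + ρ)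
      have h2 := Int.le_ceil (y - ρ)
      linarith
    · rw [Int.toNat_of_nonpos h.le]
      simp
  exact_mod_cast h1

/-- the zeros of `vc` in a disc -/
theorem vc_zeros_card {a : ℝ} (ha : 1 ≤ |a|) (w : ℂ) (ρ : ℝ) (M : ℕ) (hM : 2 * ρ + 1 ≤ M) :
    {v : ℂ | vc a v = 0 ∧ ‖v - w‖ < ρ}.encard ≤ 2 * M := by
  have hpi := Real.pi_gt_three
  have ha0 : a ≠ 0 := by
    rintro rfl
    rw [abs_zero] at ha
    linarith
  set c : ℝ := -1 / (Real.pi * a) with hc
  have hc1 : |c| ≤ 1 := by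
    rw [hc, abs_div, abs_neg, abs_one, abs_mul, abs_of_pos Real.pi_pos, div_le_one (by positivity)]
    nlinarith
  set θ : ℝ := Real.arccos c with hθ
  have hcos : Real.cos θ = c := Real.cos_arccos (abs_le.1 hc1).1 (abs_le.1 hc1).2
  set τ : ℝ := θ / (2 * Real.pi) with hτ
  have hcov : {v : ℂ | vc a v = 0 ∧ ‖v - w‖ < ρ} ⊆
      (fun k : ℤ => ((k + τ : ℝ) : ℂ)) '' {k : ℤ | |(k : ℝ) - (w.re - τ)| < ρ} ∪
      (fun k : ℤ => ((k - τ : ℝ) : ℂ)) '' {k : ℤ | |(k : ℝ) - (w.re + τ)| < ρ} := by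
    rintro v ⟨hv, hvw⟩
    have h1 : Complex.cos (2 * Real.pi * v) = Complex.cos (θ : ℂ) := by
      rw [← Complex.ofReal_cos, hcos, hc]
      unfold vc at hv
      have hpc : (Real.pi : ℂ) ≠ 0 := by exact_mod_cast Real.pi_ne_zero
      have hac : (a : ℂ) ≠ 0 := by exact_mod_cast ha0
      push_cast
      field_simp
      linear_combination hv / 2
    rw [Complex.cos_eq_cos_iff] at h1
    obtain ⟨k, hk⟩ := h1
    have hpc : (2 * Real.pi : ℂ) ≠ 0 := by
      have : (Real.pi : ℂ) ≠ 0 := by exact_mod_cast Real.pi_ne_zero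
      exact mul_ne_zero two_ne_zero this
    have hre : |v.re - w.re| < ρ := by
      have := Complex.abs_re_le_norm (v - w)
      rw [Complex.sub_re] at this
      linarith
    rcases hk with hk | hk
    · left
      have h2 : v = (((-k : ℤ) + τ : ℝ) : ℂ) := by
        have : 2 * Real.pi * v = 2 * Real.pi * (((-k : ℤ) + τ : ℝ) : ℂ) := by
          rw [hτ]
          push_cast
          field_simp
          linear_combination -hk
        exact mul_left_cancel₀ hpc this
      refine ⟨-k, ?_, h2.symm⟩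
      rw [h2, Complex.ofReal_re] at hre
      show |(((-k : ℤ)) : ℝ) - (w.re - τ)| < ρ
      rw [show (((-k : ℤ)) : ℝ) - (w.re - τ) = ((-k : ℤ) + τ : ℝ) - w.re by ring]
      exact hre
    · right
      have h2 : v = (((k : ℤ) - τ : ℝ) : ℂ) := by
        have : 2 * Real.pi * v = 2 * Real.pi * (((k : ℤ) - τ : ℝ) : ℂ) := by
          rw [hτ]
          push_cast
          field_simp
          linear_combination hk
        exact mul_left_cancel₀ hpc this
      refine ⟨k, ?_, h2.symm⟩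
      rw [h2, Complex.ofReal_re] at hre
      show |(k : ℝ) - (w.re + τ)| < ρ
      rw [show (k : ℝ) - (w.re + τ) = (k - τ : ℝ) - w.re by ring]
      exact hre
  refine (encard_le_encard hcov).trans ((encard_union_le _ _).trans ?_)
  rw [two_mul]
  exact add_le_add ((encard_image_le _ _).trans (int_card _ _ _ hM))
    ((encard_image_le _ _).trans (int_card _ _ _ hM))

end Pool.Agent.Helper82.EN
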