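import Pool.Agent.Helper18.EP.PosE

/-! Project EN: the component meets every set which contains a family of strips that become long. -/

set_option autoImplicit false
open MeasureTheory Real Set Filter Topology

namespace Pool.Agent.Helper82.EN

open Pool.Agent.Helper18.UC Pool.Agent.Helper18.UY Pool.Agent.Helper18.EP

variable {a : ℝ} {S : T2 → T2} {W : Set (ℝ × ℝ)}

private lemma real_pos {E : Set T2} (h : volume E ≠ 0) : 0 < volume.real E :=
  ENNReal.toReal_pos h (measure_ne_top _ _)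

lemma fam_mono {b B : ℝ} {n : ℕ} {U : Set T2} {η η' : ℝ} {𝒬 : Set (Set T2)} (h : η ≤ η')
    (hF : FamL a b B n U η 𝒬) : FamL a b B n U η' 𝒬 := by
  refine ⟨hF.1, hF.2.1, hF.2.2.1, fun Q hQ => (hF.2.2.2 Q hQ).trans ?_⟩
  exact mul_le_mul_left (ENNReal.ofReal_le_ofReal h) _

lemma iter_inv {O : Set T2} (hinv : S ⁻¹' O = O) : ∀ n : ℕ, S^[n] ⁻¹' O = O
  | 0 => rfl
  | n + 1 => by
    rw [Function.iterate_succ, Set.preimage_comp, iter_inv hinv n, hinv]

theorem dense_fam (hS : IsS a S) (hW : Zone W) {b B : ℝ} (ha : 10 ≤ |a|) {U : Set T2}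
    (hU : MeasurableSet U) {n : ℕ} {𝒬 : Set (Set T2)} (hF : FamL a b B n U 0 𝒬)
    (h0 : volume (⋃₀ 𝒬) ≠ 0) (hO : volume (OO a b B W) ≠ 0) :
    volume (OO a b B W ∩ U) ≠ 0 := by
  obtain ⟨p, hp, hpv⟩ : ∃ p ∈ Ix a b B W, volume (Om a W p.1 p.2) ≠ 0 := by
    by_contra hcon
    push Not at hcon
    exact hO ((measure_biUnion_null_iff (Set.to_countable _)).2 hcon)
  obtain ⟨c', κ', θ, hd⟩ := hp
  have hB := hd.hB
  have hBp : 0 < B := by linarith
  have hL := LL_ge a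
  have hE' : MeasurableSet (Om a W (p.1 : ℝ) (p.2 : ℝ)) := measurableSet_Om hW _ _
  have hμ := real_pos hpv
  have hy := real_pos h0
  set μ := volume.real (Om a W (p.1 : ℝ) (p.2 : ℝ)) with hμd
  set y := volume.real (⋃₀ 𝒬) with hyd
  have hθ0 := hd.hθ
  set β : ℝ := 1 / (20 * B ^ 2) with hb
  have hb0 : 0 < β := by positivity
  set x : ℝ := θ * μ / 2 with hxd
  have hx : 0 < x := by positivity
  set η : ℝ := β * (y * x) / 4 with hη
  have hη0 : 0 < η := by positivity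
  obtain ⟨n', 𝒬', -, hF', hh'⟩ := famE_bwd hS hW hd hE' subset_rfl hη0 hx 1
  rw [← hμd] at hh'
  have k2 : x ≤ volume.real (⋃₀ 𝒬') := by linarith
  have s0 := sum_low hS hB ha hU hE' hη0.le (fam_mono hη0.le hF) hF' (j := 0) (by norm_num)
  rw [pow_zero, mul_one, ← hb] at s0
  have k3 : β * (y * x) ≤ β * (volume.real (⋃₀ 𝒬) * volume.real (⋃₀ 𝒬')) := by
    refine mul_le_mul_of_nonneg_left ?_ hb0.le
    exact mul_le_mul_of_nonneg_left k2 hy.le
  have k4 : 0 < β * (y * x) := by positivity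
  have k5 : 0 < volume.real (U ∩ S^[n + 0 + n'] ⁻¹' Om a W (p.1 : ℝ) (p.2 : ℝ)) := by linarith
  intro hnull
  have hsub : U ∩ S^[n + 0 + n'] ⁻¹' Om a W (p.1 : ℝ) (p.2 : ℝ) ⊆ OO a b B W ∩ U := by
    rintro z ⟨h1, h2⟩
    refine ⟨?_, h1⟩
    have h3 : z ∈ S^[n + 0 + n'] ⁻¹' OO a b B W :=
      mem_iUnion₂.2 ⟨p, ⟨c', κ', θ, hd⟩, h2⟩
    rwa [iter_inv (OO_inv hS hW b B)] at h3
  have h4 := measure_mono_null hsub hnull
  rw [measureReal_def, h4, ENNReal.toReal_zero] at k5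
  exact lt_irrefl _ k5

/-- the exponents in the component are positive -/
theorem OO_pos {b B : ℝ} {lam : T2 → ℝ} (hom : ∀ c : ℝ, ∀ᵐ z, z ∈ om a c ↔ c < lam z) :
    ∀ᵐ z, z ∈ OO a b B W → 0 < lam z := by
  have h1 : ∀ᵐ z, ∀ c : ℚ, z ∈ om a c ↔ (c : ℝ) < lam z := ae_all_iff.2 fun c => hom c
  filter_upwards [h1] with z h1 hz
  obtain ⟨p, ⟨c', κ', θ, hd⟩, h2⟩ := mem_iUnion₂.1 hz
  have h3 := (h1 p.1).1 h2.1
  have := hd.hc
  have := hd.hcc
  linarith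

end Pool.Agent.Helper82.EN
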