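import Pool.Agent.Helper18.EP.Asm
import Pool.Agent.Helper18.EN.Asm
import Pool.Agent.Helper72.EN.Ent
import Pool.Agent.Helper82.EN.Dense
import Pool.Agent.Helper46.EN.Sea2

/-! Assembly of the final theorem, third form: effective, positive exponent, entropy clause, density. -/

set_option autoImplicit false
open MeasureTheory Real Set Filter Topology

namespace Pool.Agent.Helper82.EN

open Pool.Agent.Helper18.UC Pool.Agent.Helper18.UY Pool.Agent.Helper18.EP

private theorem prob : IsProbabilityMeasure (volume : Measure T2) := by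
  have h1 : IsProbabilityMeasure (volume : Measure UnitAddCircle) := ⟨by
    rw [AddCircle.measure_univ, ENNReal.ofReal_one]⟩
  change IsProbabilityMeasure ((volume : Measure UnitAddCircle).prod (volume : Measure UnitAddCircle))
  infer_instance

private theorem vol_zt {W : Set (ℝ × ℝ)} (hW : Zone W) :
    volume (zt W) = volume (W ∩ Ico (0 : ℝ) 1 ×ˢ Ico (0 : ℝ) 1) :=
  vol_rep hW.meas

private theorem ae_torus {P : T2 → Prop} (hP : MeasurableSet {z | P z})
    (h : ∀ᵐ q : ℝ × ℝ, P (toT q)) : ∀ᵐ z, P z := by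
  rw [ae_iff] at h ⊢
  have h1 : MeasurableSet {z : T2 | ¬ P z} := hP.compl
  have h2 : {z : T2 | ¬ P z} = rep ⁻¹' (toT ⁻¹' {z : T2 | ¬ P z}) := by
    ext z
    simp [toT_rep]
  rw [h2, vol_rep (measurable_toT h1)]
  exact measure_mono_null inter_subset_left h

/-- the upper frequency is always less than two -/
private theorem vu_two (a : ℝ) (W : Set (ℝ × ℝ)) (z : T2) : z ∈ vu a W 2 := by
  have hbdd : IsBoundedUnder (· ≤ ·) atTop (fun n : ℕ => 1 - vis a W n (rep z) / n) :=
    isBoundedUnder_of ⟨1, fun n => by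
      have : 0 ≤ vis a W n (rep z) / n := div_nonneg (vis_nonneg a W n _) (Nat.cast_nonneg n)
      linarith⟩
  have h1 : (0:ℝ) ≤ liminf (fun n : ℕ => 1 - vis a W n (rep z) / n) atTop := by
    refine le_liminf_of_le hbdd.isCoboundedUnder_ge (Eventually.of_forall fun n => ?_)
    have h1 : vis a W n (rep z) / n ≤ 1 := by
      rcases Nat.eq_zero_or_pos n with h | h
      · subst h
        simp
      · have hn : (0 : ℝ) < n := by exact_mod_cast h
        rw [div_le_one hn]
        exact vis_le a W n _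
    linarith
  show (1:ℝ) - 2 < _
  linarith

/-- the constant of the class estimate at unit scale -/
private theorem log_const : Real.log (2 * 64000000016 : ℝ) + 1 < 27 := by
  have h1 : Real.log (2 * 64000000016 : ℝ) < 26 := by
    rw [Real.log_lt_iff_lt_exp (by norm_num)]
    have h := Real.exp_one_gt_d9
    have h2 : Real.exp 26 = Real.exp 1 ^ 26 := by rw [← Real.exp_nat_mul]; norm_num
    rw [h2]
    calc (2 * 64000000016 : ℝ) < 2.718 ^ 26 := by norm_num
      _ ≤ Real.exp 1 ^ 26 := pow_le_pow_left₀ (by norm_num) (by linarith) 26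
  linarith

theorem main3 : ∃ A : ℝ → ℝ, ∀ a : ℝ, 10 ^ 20 ≤ |a| →
    ∀ S : UnitAddCircle × UnitAddCircle → UnitAddCircle × UnitAddCircle,
    (∀ x y : ℝ, S ((x : UnitAddCircle), (y : UnitAddCircle)) =
      (((2 * x - y + a * Real.sin (2 * π * x) : ℝ) : UnitAddCircle), (x : UnitAddCircle))) →
    ∃ lam : UnitAddCircle × UnitAddCircle → ℝ, Measurable lam ∧
      (∀ᵐ p : ℝ × ℝ, Tendsto (fun n : ℕ => Real.log
          ‖fderiv ℝ ((fun q : ℝ × ℝ => (2 * q.1 - q.2 + a * Real.sin (2 * π * q.1), q.1))^[n]) p‖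
            / n) atTop (𝓝 (lam ((p.1 : UnitAddCircle), (p.2 : UnitAddCircle))))) ∧
      ∃ O : Set (UnitAddCircle × UnitAddCircle), MeasurableSet O ∧ S ⁻¹' O = O ∧
        (∃ L0 : ℝ, 0 < L0 ∧ ∀ᵐ z, z ∈ O → lam z = L0) ∧
        (∀ (ξ : ℂ) (h : UnitAddCircle × UnitAddCircle → ℂ), Measurable h →
          (∀ᵐ z, z ∈ O → h (S z) = ξ * h z) → ∃ w : ℂ, ∀ᵐ z, z ∈ O → h z = w) ∧
        (∀ᵐ z, 27 < lam z → z ∈ O) ∧
        ∫ z in Oᶜ, lam z ≤ 10 ^ 14 * (Real.log |a| ^ 2 / |a|) ∧
        (volume O ≠ 0 → ∀ z : UnitAddCircle × UnitAddCircle,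
          volume (O ∩ Metric.ball z (2 / |a|)) ≠ 0) ∧
        ∀ δ : ℝ, 0 < δ → A δ ≤ |a| →
          1 - (1 - (∫ z, lam z) / Real.log |a|) ^ 2 - δ ≤ volume.real O ∧
          (∀ σ : ℝ, 0 ≤ σ → σ ≤ 1 / 2 → volume {z | (1 - σ) * Real.log |a| ≤ lam z} ≠ 0 →
            1 - (σ / (1 - σ)) ^ 2 - δ ≤ volume.real O) := by
  have hUY := Pool.Agent.Helper18.UY.main
  have hent := Pool.Agent.Helper72.EN.ent_lam
  obtain ⟨l0, hl0⟩ : ∃ l0 : ℝ, ∀ l ≥ l0, 27 ≤ 6 * Real.log l := by
    have h1 := Real.tendsto_log_atTop.eventually_ge_atTop ((27 : ℝ) / 6)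
    obtain ⟨l0, h2⟩ := eventually_atTop.1 h1
    exact ⟨l0, fun l hl => by linarith [h2 l hl]⟩
  choose! A2 hA2 using hUY
  choose! A4 hA4 using hent
  refine ⟨fun δ => max (max (A2 δ) (A4 δ)) (Real.exp l0), ?_⟩
  intro a ha S hS
  have haA1 : 10 ^ 15 ≤ |a| := le_trans (by norm_num) ha
  have ha3 : 1000 ≤ |a| := le_trans (by norm_num) ha
  have ha0 : 0 < |a| := by linarith
  have ha1' : 1 ≤ |a| := by linarith
  have hla1 : 10 ≤ Real.log |a| := by
    rw [Real.le_log_iff_exp_le ha0]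
    have h2 : Real.exp 10 = Real.exp 1 ^ 10 := by rw [← Real.exp_nat_mul]; norm_num
    have h3 := Real.exp_one_lt_d9
    rw [h2]
    calc Real.exp 1 ^ 10 ≤ 3 ^ 10 :=
          pow_le_pow_left₀ (Real.exp_pos _).le (by linarith) 10
      _ ≤ |a| := le_trans (by norm_num) ha
  obtain ⟨C, hCd⟩ : ∃ C : ℝ, C = 4 * 10 ^ 12 + 10 := ⟨_, rfl⟩
  obtain ⟨p, hpd⟩ : ∃ p : ℕ, p = 5 := ⟨_, rfl⟩
  have hC0 : 0 < C := by rw [hCd]; norm_num
  set l : ℝ := Real.log |a| with hl
  have hS' : IsS a S := hS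
  obtain ⟨lam, hlm, hlbd, hlinv, hlim, hom⟩ := exists_lam hS'
  obtain ⟨b, hb0, hb1, hdir⟩ := exists_dir a
  obtain ⟨W, hWd⟩ : ∃ W : Set (ℝ × ℝ), W = zn a (4 * 10 ^ 12 * |a|) := ⟨_, rfl⟩
  have hW : Zone W := by rw [hWd]; exact Pool.Agent.Helper46.EN.zone_zn2 a _
  have hWv : volume (W ∩ Ico (0 : ℝ) 1 ×ˢ Ico (0 : ℝ) 1) ≤ ENNReal.ofReal (C * (l / |a|)) := by
    rw [hWd, hCd, hl]
    exact Pool.Agent.Helper46.EN.vol_zn2 (by norm_num) a ha3
  obtain ⟨K, D, hK, hD, hcls⟩ := Pool.Agent.Helper18.EP.class_est ha hb0 hb1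
  rw [← hWd, ← hpd] at hcls
  obtain ⟨nu, hnm, hnb, hn0, hnv, hni⟩ := exists_nu hS' hW
  have := prob
  have ha10 : 10 ≤ |a| := by linarith
  have hmix : ∀ (ξ : ℂ) (h : UnitAddCircle × UnitAddCircle → ℂ), Measurable h →
      (∀ᵐ z, z ∈ OO a b 100 W → h (S z) = ξ * h z) →
      ∃ w : ℂ, ∀ᵐ z, z ∈ OO a b 100 W → h z = w := by
    intro ξ h hh heq
    exact eig_const (S_mp hS') (measurableSet_OO hW b 100) (OO_inv hS' hW b 100)
      (fun E E' hE hE' hEΩ hEΩ' hm hm' => posO hS' hW ha10 hE hE' hEΩ hEΩ' hm hm') hh heq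
  have hp1 : 1 ≤ |a| ^ p := one_le_pow₀ ha1'
  -- the exponent outside
  have hout : ∀ x : ℝ, 0 < x → x ≤ 1 →
      ∀ᵐ z, z ∉ OO a b 100 W → lam z ≤ nu z * Real.log (|a| ^ p / x) + x := by
    intro x hx hx1
    have hCx : 0 ≤ Real.log (|a| ^ p / x) := Real.log_nonneg (by rw [le_div_iff₀ hx]; linarith)
    have h1 : ∀ᵐ z, ∀ c : ℚ, z ∈ om a c ↔ (c : ℝ) < lam z := ae_all_iff.2 fun c => hom c
    have h2 : ∀ᵐ z, ∀ κ : ℚ, nu z < κ → z ∈ vu a W κ := ae_all_iff.2 fun κ => hnv κ
    filter_upwards [h1, h2, hn0] with z h1 h2 h3 hz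
    by_contra hcon
    rw [not_le] at hcon
    have hp : 0 < Real.log (|a| ^ p / x) + 1 := by linarith
    obtain ⟨e, he0, he⟩ : ∃ e : ℝ, 0 < e ∧ (nu z + e) * Real.log (|a| ^ p / x) + x + e < lam z := by
      refine ⟨(lam z - (nu z * Real.log (|a| ^ p / x) + x)) / (2 * (Real.log (|a| ^ p / x) + 1)),
        by
          have : 0 < lam z - (nu z * Real.log (|a| ^ p / x) + x) := by linarith
          positivity, ?_⟩
      have e1 : (lam z - (nu z * Real.log (|a| ^ p / x) + x)) / (2 * (Real.log (|a| ^ p / x) + 1)) *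
          (Real.log (|a| ^ p / x) + 1) = (lam z - (nu z * Real.log (|a| ^ p / x) + x)) / 2 := by
        field_simp
      nlinarith
    obtain ⟨κ, hκ1, hκ2⟩ := exists_rat_btwn (show nu z < nu z + e by linarith)
    obtain ⟨c, hc1, hc2⟩ := exists_rat_btwn he
    apply hz
    have hκ0 : (0:ℝ) ≤ nu z + e := by linarith
    obtain ⟨θ, hθ0, hθ1, hbad⟩ := badE (c := c - e / 2) (κ := nu z + e) (by norm_num) hW hp1 hK hD
      hcls hκ0 hx hx1 (by linarith)
    refine mem_iUnion₂.2 ⟨(c, κ), ⟨c - e / 2, nu z + e, θ, le_refl _, ?_, ?_, hκ2, hθ0, hθ1, hdir,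
      hbad⟩, (h1 c).2 hc2, h2 κ hκ1⟩
    · have : 0 ≤ (nu z + e) * Real.log (|a| ^ p / x) := mul_nonneg hκ0 hCx
      linarith
    · show (c : ℝ) - e / 2 < c
      linarith
  -- large exponents
  have hlarge : ∀ᵐ z, 27 < lam z → z ∈ OO a b 100 W := by
    have h1 : ∀ᵐ z, ∀ c : ℚ, z ∈ om a c ↔ (c : ℝ) < lam z := ae_all_iff.2 fun c => hom c
    obtain ⟨K1, D1, hK1, hD1, hcls1⟩ := Pool.Agent.Helper18.EN.class_est haA1 hb0 hb1
    set W1 := Pool.Agent.Helper18.EN.zn a (64 * √(10 ^ 10 * |a|)) with hW1d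
    have hW1 : Pool.Agent.Helper18.EN.Zone W1 := Pool.Agent.Helper18.EN.zone_zn a _
    obtain ⟨T, hT, hT1, hT0⟩ : ∃ T : ℝ, Real.log (2 * 64000000016 : ℝ) = T ∧ T + 1 < 27 ∧ 0 ≤ T :=
      ⟨_, rfl, log_const, Real.log_nonneg (by norm_num)⟩
    filter_upwards [h1] with z h1 h3
    obtain ⟨c, hc1, hc2⟩ := exists_rat_btwn h3
    obtain ⟨θ, hθ0, hθ1, hbad⟩ := Pool.Agent.Helper18.EN.badE
      (c := ((c : ℝ) + (T + 1)) / 2) (κ := 1) (x := 1)
      (by norm_num) hW1 (by norm_num) hK1 hD1 hcls1 zero_le_one one_pos le_rfl (by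
        rw [div_one, one_mul, hT]
        linarith)
    obtain ⟨c', hc'⟩ : ∃ c' : ℝ, c' = ((c : ℝ) + (T + 1)) / 2 := ⟨_, rfl⟩
    rw [← hc'] at hbad
    have hb2 : BadE a b 100 W c' 3 θ := by
      refine tendsto_of_tendsto_of_tendsto_of_le_of_le tendsto_const_nhds hbad
        (fun N => zero_le) (fun N => measure_mono ?_)
      refine Set.sdiff_subset_sdiff_left fun z hz => ⟨hz.1, ?_⟩
      show Pool.Agent.Helper18.EN.vis a W1 N (rep z) ≤ 1 * N
      rw [one_mul]
      unfold Pool.Agent.Helper18.EN.vis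
      calc ∑ j ∈ Finset.range N, W1.indicator (fun _ => (1 : ℝ)) ((F a)^[j] (rep z)).1 ≤
          ∑ _j ∈ Finset.range N, (1 : ℝ) := by
            refine Finset.sum_le_sum fun j _ => ?_
            exact Set.indicator_le_self' (fun _ _ => zero_le_one) _
        _ = N := by simp
    refine mem_iUnion₂.2 ⟨(c, 2), ⟨c', 3, θ, le_refl _, by linarith, ?_, by norm_num, hθ0, hθ1,
      hdir, hb2⟩, (h1 c).2 hc2, ?_⟩
    · show c' < c
      linarith
    · have h6 := vu_two a W z
      show z ∈ vu a W ((2 : ℚ) : ℝ)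
      rw [show ((2 : ℚ) : ℝ) = 2 by norm_num]
      exact h6
  have hCp : 0 ≤ C * (p + 1) + 1 := by positivity
  refine ⟨lam, hlm, hlim, OO a b 100 W, measurableSet_OO hW b 100, OO_inv hS' hW b 100, ?_, hmix,
    hlarge, ?_, fun hne z => Pool.Agent.Helper46.EN.dens hS' hW ha10 hne z, ?_⟩
  · obtain ⟨w, hw⟩ := hmix 1 (fun z => (lam z : ℂ)) (Complex.measurable_ofReal.comp hlm) (by
      filter_upwards [hlinv] with z hz _
      rw [hz, one_mul])
    have hw' : ∀ᵐ z, z ∈ OO a b 100 W → lam z = w.re := by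
      filter_upwards [hw] with z hz h1
      rw [← hz h1, Complex.ofReal_re]
    by_cases hnull : volume (OO a b 100 W) = 0
    · refine ⟨1, one_pos, ?_⟩
      have h1 : ∀ᵐ z, z ∉ OO a b 100 W := by
        rw [ae_iff]
        simpa using hnull
      filter_upwards [h1] with z h1 h2
      exact absurd h2 h1
    · refine ⟨w.re, ?_, hw'⟩
      by_contra hneg
      apply hnull
      have h1 : ∀ᵐ z, z ∉ OO a b 100 W := by
        filter_upwards [hw', OO_pos (b := b) (B := 100) (W := W) hom] with z h1 h2 h3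
        have h4 := h1 h3
        have h5 := h2 h3
        exact hneg (by linarith)
      rw [ae_iff] at h1
      simpa using h1
  · -- the integral
    have hx : (0:ℝ) < 1 / |a| := by positivity
    have hx1 : 1 / |a| ≤ 1 := by rw [div_le_one ha0]; exact ha1'
    have hOm : MeasurableSet (OO a b 100 W)ᶜ := (measurableSet_OO hW b 100).compl
    have hlint : Integrable lam := Integrable.of_bound hlm.aestronglyMeasurable (Real.log (LL a))
      (Eventually.of_forall fun z => by rw [Real.norm_eq_abs]; exact hlbd z)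
    have hnint : Integrable nu := Integrable.of_bound hnm.aestronglyMeasurable 1
      (Eventually.of_forall fun z => by rw [Real.norm_eq_abs]; exact hnb z)
    have hL2 : Real.log (|a| ^ p / (1 / |a|)) = (p + 1) * l := by
      rw [div_div_eq_mul_div, div_one, ← pow_succ, Real.log_pow]
      push_cast
      ring
    have hni' : ∫ z, nu z ≤ C * (l / |a|) := by
      rw [hni, measureReal_def, vol_zt hW]
      refine ENNReal.toReal_le_of_le_ofReal (by positivity) hWv
    calc ∫ z in (OO a b 100 W)ᶜ, lam z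
        ≤ ∫ z in (OO a b 100 W)ᶜ, (nu z * ((p + 1) * l) + 1 / |a|) := by
          refine setIntegral_mono_ae_restrict hlint.integrableOn
            ((hnint.mul_const _).add (integrable_const _)).integrableOn ?_
          rw [Filter.EventuallyLE, ae_restrict_iff' hOm]
          filter_upwards [hout (1 / |a|) hx hx1] with z hz hz'
          have := hz hz'
          rw [hL2] at this
          exact this
      _ ≤ ∫ z, (nu z * ((p + 1) * l) + 1 / |a|) := by
          refine setIntegral_le_integral ((hnint.mul_const _).add (integrable_const _)) ?_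
          filter_upwards [hn0] with z hz
          show (0:ℝ) ≤ nu z * ((p + 1) * l) + 1 / |a|
          positivity
      _ = (∫ z, nu z) * ((p + 1) * l) + 1 / |a| := by
          rw [integral_add (hnint.mul_const _) (integrable_const _), integral_mul_const]
          simp
      _ ≤ (C * (l / |a|)) * ((p + 1) * l) + 1 / |a| * l ^ 2 := by
          have h1 : (∫ z, nu z) * ((p + 1) * l) ≤ (C * (l / |a|)) * ((p + 1) * l) :=
            mul_le_mul_of_nonneg_right hni' (by positivity)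
          have h2 : 1 / |a| * 1 ≤ 1 / |a| * l ^ 2 :=
            mul_le_mul_of_nonneg_left (by nlinarith) hx.le
          linarith
      _ = (C * (p + 1) + 1) * (l ^ 2 / |a|) := by ring
      _ ≤ 10 ^ 14 * (l ^ 2 / |a|) := by
          refine mul_le_mul_of_nonneg_right ?_ (by positivity)
          rw [hCd, hpd]
          norm_num
  intro δ hδ hAδ
  have ha2 : A2 δ ≤ |a| := ((le_max_left _ _).trans (le_max_left _ _)).trans hAδ
  have haA4 : A4 δ ≤ |a| := ((le_max_right _ _).trans (le_max_left _ _)).trans hAδ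
  have hla2 : 27 ≤ 6 * Real.log l := by
    refine hl0 l ?_
    show l0 ≤ Real.log |a|
    rw [Real.le_log_iff_exp_le ha0]
    exact (le_max_right _ _).trans hAδ
  constructor
  · -- the entropy clause
    refine (hA4 δ hδ a haA4 S hS' lam hlm hlbd hlinv hom).trans ?_
    refine ENNReal.toReal_mono (measure_ne_top _ _) (measure_mono_ae ?_)
    filter_upwards [hlarge] with z h1 h2
    exact h1 (by
      have h3 : 6 * Real.log (Real.log |a|) < lam z := h2
      linarith)
  · -- the measure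
    intro σ hσ0 hσ1 hvol
    obtain ⟨lam', hlm', hlim', -, -, hbig⟩ := hA2 δ hδ a ha2 S hS
    have heq : ∀ᵐ z, lam z = lam' z := by
      refine ae_torus (measurableSet_eq_fun hlm hlm') ?_
      filter_upwards [hlim, hlim'] with p h1 h2
      exact tendsto_nhds_unique h1 h2
    have h1 : volume {z | (1 - σ) * l ≤ lam' z} ≠ 0 := by
      intro h0
      apply hvol
      refine measure_mono_null_ae ?_ h0
      filter_upwards [heq] with z hz h2
      show (1 - σ) * l ≤ lam' z
      rw [← hz]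
      exact h2
    refine (hbig σ hσ0 hσ1 h1).trans ?_
    refine ENNReal.toReal_mono (measure_ne_top _ _) (measure_mono_ae ?_)
    filter_upwards [heq, hlarge] with z h2 h3 h4
    have h5 : 6 * Real.log (Real.log |a|) < lam' z := h4
    refine h3 ?_
    rw [h2]
    linarith

end Pool.Agent.Helper82.EN
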