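import Pool.Agent.Helper82.EN.Defs
import Pool.Agent.Helper95.EN.Motion

/-! Project EN: critical points under a small perturbation, position form.

`f_s = g + s h`, `O_s = ⋃ x ∈ S, cmp f_s x (R + 2 q (1 - s))`. If `‖h - h x‖ ≤ q` on `cmp g x (R + 2 q)`, then the number of critical points
of `f_s` in `O_s` is nonincreasing in `s`. -/

set_option autoImplicit false
open Set Metric Filter Topology
open Helper95.EN

namespace Pool.Agent.Helper82.EN

/-- near a point the variation of `f` on the segment to the point is small compared with the derivative -/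
theorem seg_le_deriv {f : ℂ → ℂ} (hf : Differentiable ℂ f) (hne : ∃ z, deriv f z ≠ 0) (z0 : ℂ)
    {η : ℝ} (hη : 0 < η) : ∀ᶠ z in 𝓝 z0, ∀ w ∈ segment ℝ z0 z, ‖f w - f z‖ ≤ η * ‖deriv f z‖ := by
  have hfd : Differentiable ℂ (deriv f) := by
    intro z
    exact (hf.analyticAt z).deriv.differentiableAt
  have h1 := (hf.analyticAt z0).analyticOrderAt_deriv_add_one
  have htop := ord_ne_top hfd hne z0
  obtain ⟨u, hu, hu0, hu1⟩ := ((hfd.analyticAt z0).analyticOrderAt_ne_top).1 htop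
  set n := analyticOrderNatAt (deriv f) z0 with hn
  have h2 : analyticOrderAt (fun z => f z - f z0) z0 = ((n + 1 : ℕ) : ℕ∞) := by
    rw [← h1, ← Nat.cast_analyticOrderNatAt htop]
    simp [hn]
  have hA : AnalyticAt ℂ (fun z => f z - f z0) z0 := (hf.analyticAt z0).sub analyticAt_const
  obtain ⟨v, hv, hv0, hv1⟩ := (hA.analyticOrderAt_eq_natCast).1 h2
  have hu0' : 0 < ‖u z0‖ := norm_pos_iff.2 hu0
  have e1 : ∀ᶠ z in 𝓝 z0, ‖v z‖ < ‖v z0‖ + 1 :=
    hv.continuousAt.norm.eventually_lt continuousAt_const (by linarith)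
  have e2 : ∀ᶠ z in 𝓝 z0, ‖u z0‖ / 2 < ‖u z‖ :=
    continuousAt_const.eventually_lt hu.continuousAt.norm (by linarith)
  set V : ℝ := ‖v z0‖ + 1 with hV
  have hV0 : 0 < V := by positivity
  have e3 : ∀ᶠ z in 𝓝 z0, ‖z - z0‖ < η * ‖u z0‖ / (4 * V) := by
    have hc : ContinuousAt (fun z : ℂ => ‖z - z0‖) z0 := by fun_prop
    refine hc.eventually_lt continuousAt_const ?_
    simp only [sub_self, norm_zero]
    positivity
  obtain ⟨ε, hε, hball⟩ := Metric.eventually_nhds_iff_ball.1 ((hu1.and hv1).and (e1.and (e2.and e3)))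
  filter_upwards [ball_mem_nhds z0 hε] with z hz w hw
  have hwz : ‖w - z0‖ ≤ ‖z - z0‖ := by
    obtain ⟨α, β, hα, hβ, hαβ, rfl⟩ := hw
    have : α • z0 + β • z - z0 = β • (z - z0) := by
      have hα' : α = 1 - β := by linarith
      rw [hα']
      simp only [Complex.real_smul]
      push_cast
      ring
    rw [this, norm_smul, Real.norm_eq_abs, abs_of_nonneg hβ]
    exact mul_le_of_le_one_left (norm_nonneg _) (by linarith)
  have hwb : w ∈ ball z0 ε := by
    rw [mem_ball, dist_eq_norm] at hz ⊢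
    exact hwz.trans_lt hz
  obtain ⟨⟨h3, h4⟩, h5, h6, h7⟩ := hball z hz
  obtain ⟨⟨-, h4'⟩, h5', -, -⟩ := hball w hwb
  have k1 : ‖f w - f z0‖ ≤ ‖z - z0‖ ^ (n + 1) * V := by
    rw [h4', smul_eq_mul, norm_mul, norm_pow]
    gcongr
  have k2 : ‖f z - f z0‖ ≤ ‖z - z0‖ ^ (n + 1) * V := by
    rw [h4, smul_eq_mul, norm_mul, norm_pow]
    gcongr
  have h3' : deriv f z = (z - z0) ^ n * u z := h3
  have k3 : ‖z - z0‖ ^ n * (‖u z0‖ / 2) ≤ ‖deriv f z‖ := by
    rw [h3', norm_mul, norm_pow]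
    gcongr
  have k4 : ‖f w - f z‖ ≤ ‖f w - f z0‖ + ‖f z - f z0‖ := by
    have := norm_sub_le_norm_sub_add_norm_sub (f w) (f z0) (f z)
    rwa [norm_sub_rev (f z0) (f z)] at this
  have k5 : 2 * V * ‖z - z0‖ ≤ η * (‖u z0‖ / 2) := by
    rw [lt_div_iff₀ (by positivity)] at h7
    nlinarith
  calc ‖f w - f z‖ ≤ ‖z - z0‖ ^ (n + 1) * V + ‖z - z0‖ ^ (n + 1) * V := by linarith
    _ = ‖z - z0‖ ^ n * (2 * V * ‖z - z0‖) := by ring
    _ ≤ ‖z - z0‖ ^ n * (η * (‖u z0‖ / 2)) := mul_le_mul_of_nonneg_left k5 (by positivity)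
    _ = η * (‖z - z0‖ ^ n * (‖u z0‖ / 2)) := by ring
    _ ≤ η * ‖deriv f z‖ := mul_le_mul_of_nonneg_left k3 hη.le

section mot

variable {g h : ℂ → ℂ} {S : Set ℝ} {R q M : ℝ}

/-- the union of the components at time `s` -/
def ot (g h : ℂ → ℂ) (S : Set ℝ) (R q s : ℝ) : Set ℂ :=
  ⋃ x ∈ S, cmp (fam g h s) (x : ℂ) (R + 2 * q * (1 - s))

theorem fam_sub (g h : ℂ → ℂ) (s s0 : ℝ) (u v : ℂ) :
    fam g h s0 u - fam g h s0 v = (fam g h s u - fam g h s v) - ((s - s0 : ℝ) : ℂ) * (h u - h v) := by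
  unfold fam
  push_cast
  ring

theorem norm_fam_sub (g h : ℂ → ℂ) (s s0 : ℝ) (u v : ℂ) :
    ‖fam g h s0 u - fam g h s0 v‖ ≤ ‖fam g h s u - fam g h s v‖ + |s - s0| * ‖h u - h v‖ := by
  rw [fam_sub g h s s0 u v]
  refine (norm_sub_le _ _).trans ?_
  rw [norm_mul, Complex.norm_real, Real.norm_eq_abs]

theorem fam_zero (g h : ℂ → ℂ) : fam g h 0 = g := by
  ext z
  unfold fam
  simp

theorem ot_sub1 (hg : Differentiable ℂ g) (hh : Differentiable ℂ h) (hR : 0 < R) (hq : 0 < q)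
    {x : ℝ} (hhq : ∀ z ∈ cmp g (x : ℂ) (R + 2 * q), ‖h z - h x‖ ≤ q) {s : ℝ} (hs0 : 0 ≤ s)
    (hs1 : s ≤ 1) : cmp (fam g h s) (x : ℂ) (R + 2 * q * (1 - s)) ⊆ cmp g (x : ℂ) (R + 2 * q) := by
  have hρ : 0 < R + 2 * q * (1 - s) := by
    have : 0 ≤ 2 * q * (1 - s) := by
      have : 0 ≤ 1 - s := by linarith
      positivity
    linarith
  refine (cmp_preconn _ _ _).subset_of_closure_inter_subset (cmp_open hg.continuous _ _)
    ⟨x, mem_cmp _ _ hρ, mem_cmp _ _ (by linarith)⟩ ?_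
  rintro v ⟨hv1, hv2⟩
  refine cmp_of_closure hg.continuous hv1 ?_
  have hcl : IsClosed {z : ℂ | ‖h z - h x‖ ≤ q} :=
    isClosed_le (by have := hh.continuous; fun_prop) continuous_const
  have h1 : ‖h v - h x‖ ≤ q := (closure_minimal (fun z hz => hhq z hz) hcl) hv1
  have h2 := cmp_sub _ _ _ hv2
  have h3 := norm_fam_sub g h s 0 v x
  rw [fam_zero] at h3
  have h4 : |s - 0| * ‖h v - h x‖ ≤ s * q := by
    rw [sub_zero, abs_of_nonneg hs0]
    exact mul_le_mul_of_nonneg_left h1 hs0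
  have h5 : ‖fam g h s v - fam g h s x‖ < R + 2 * q * (1 - s) := h2
  nlinarith

theorem ot_strict (hg : Differentiable ℂ g) (hh : Differentiable ℂ h) (hR : 0 < R) (hq : 0 < q)
    {x : ℝ} (hhq : ∀ z ∈ cmp g (x : ℂ) (R + 2 * q), ‖h z - h x‖ ≤ q) {s0 s : ℝ} (hs0 : 0 ≤ s0)
    (hss : s0 ≤ s) (hs1 : s ≤ 1) {v : ℂ} (hv : v ∈ cmp (fam g h s) (x : ℂ) (R + 2 * q * (1 - s))) :
    ‖fam g h s0 v - fam g h s0 x‖ < R + 2 * q * (1 - s0) - q * (s - s0) := by
  have h1 := hhq v (ot_sub1 hg hh hR hq hhq (hs0.trans hss) hs1 hv)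
  have h2 : ‖fam g h s v - fam g h s x‖ < R + 2 * q * (1 - s) := cmp_sub _ _ _ hv
  have h3 := norm_fam_sub g h s s0 v x
  have h4 : |s - s0| * ‖h v - h x‖ ≤ (s - s0) * q := by
    rw [abs_of_nonneg (by linarith)]
    exact mul_le_mul_of_nonneg_left h1 (by linarith)
  nlinarith

theorem ot_anti (hg : Differentiable ℂ g) (hh : Differentiable ℂ h) (hR : 0 < R) (hq : 0 < q)
    (hhq : ∀ x ∈ S, ∀ z ∈ cmp g (x : ℂ) (R + 2 * q), ‖h z - h x‖ ≤ q) {s0 s : ℝ} (hs0 : 0 ≤ s0)
    (hss : s0 ≤ s) (hs1 : s ≤ 1) : ot g h S R q s ⊆ ot g h S R q s0 := by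
  refine iUnion₂_mono fun x hx => ?_
  have hρ : 0 < R + 2 * q * (1 - s) := by
    have : 0 ≤ 2 * q * (1 - s) := by
      have : 0 ≤ 1 - s := by linarith
      positivity
    linarith
  refine cmp_max (cmp_preconn _ _ _) (mem_cmp _ _ hρ) fun v hv => ?_
  have := ot_strict hg hh hR hq (hhq x hx) hs0 hss hs1 hv
  nlinarith

theorem ot_open (hg : Differentiable ℂ g) (hh : Differentiable ℂ h) (s : ℝ) :
    IsOpen (ot g h S R q s) :=
  isOpen_biUnion fun _ _ => cmp_open (fam_diff hg hh s).continuous _ _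

/-- the local step -/
theorem ot_step (HW : HurwitzStatement) (hg : Differentiable ℂ g)
    (hh : Differentiable ℂ h) (hR : 0 < R) (hq : 0 < q)
    (hhq : ∀ x ∈ S, ∀ z ∈ cmp g (x : ℂ) (R + 2 * q), ‖h z - h x‖ ≤ q)
    (hb : ∀ x ∈ S, cmp g (x : ℂ) (R + 2 * q) ⊆ closedBall 0 M)
    (hnd : ∀ s ∈ Icc (0:ℝ) 1, ∃ z, dfam g h s z ≠ 0) (s0 : ℝ) (hs0 : s0 ∈ Icc (0:ℝ) 1) :
    ∀ᶠ s in 𝓝 s0, s ∈ Icc (0:ℝ) 1 →
      (s ≤ s0 → cnt (dfam g h s0) (ot g h S R q s0) ≤ cnt (dfam g h s) (ot g h S R q s)) ∧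
      (s0 ≤ s → cnt (dfam g h s) (ot g h S R q s) ≤ cnt (dfam g h s0) (ot g h S R q s0)) := by
  classical
  set K : Set ℂ := closedBall 0 M with hKdef
  have hK : IsCompact K := isCompact_closedBall 0 M
  have hotK : ∀ s ∈ Icc (0:ℝ) 1, ot g h S R q s ⊆ K := fun s hs =>
    iUnion₂_subset fun x hx => (ot_sub1 hg hh hR hq (hhq x hx) hs.1 hs.2).trans (hb x hx)
  -- the bound of h'
  obtain ⟨M', hM0, hM⟩ : ∃ M' : ℝ, 0 < M' ∧ ∀ z ∈ closedBall (0:ℂ) (M + 1), ‖deriv h z‖ ≤ M' := by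
    obtain ⟨M', hM⟩ := (isCompact_closedBall (0:ℂ) (M + 1)).exists_bound_of_continuousOn
      (deriv_diff hh).continuous.continuousOn
    exact ⟨max M' 1, by positivity, fun z hz => (hM z hz).trans (le_max_left _ _)⟩
  have hKK : K ⊆ closedBall (0:ℂ) (M + 1) := closedBall_subset_closedBall (by linarith)
  have hfinK : ∀ s ∈ Icc (0:ℝ) 1, {z ∈ K | dfam g h s z = 0}.Finite := fun s hs =>
    finite_zeros (dfam_diff hg hh s) (hnd s hs) hK
  have hfinO : ∀ s ∈ Icc (0:ℝ) 1, {z ∈ ot g h S R q s | dfam g h s z = 0}.Finite := fun s hs =>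
    (hfinK s hs).subset fun z hz => ⟨hotK s hs hz.1, hz.2⟩
  have hZfin := hfinO s0 hs0
  set Z := hZfin.toFinset with hZ
  have hZmem : ∀ z, z ∈ Z ↔ z ∈ ot g h S R q s0 ∧ dfam g h s0 z = 0 := by
    intro z
    rw [hZ, Set.Finite.mem_toFinset]
    rfl
  have hop : IsOpen (ot g h S R q s0) := ot_open hg hh s0
  -- small radius
  have hρ : ∀ᶠ ρ in 𝓝[>] (0:ℝ), ∀ z0 ∈ Z, closedBall z0 ρ ⊆ ot g h S R q s0 ∧
      (∀ z ∈ closedBall z0 ρ, dfam g h s0 z = 0 → z = z0) := by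
    rw [Filter.eventually_all_finset]
    intro z0 hz0
    have e1 : ∀ᶠ z in 𝓝 z0, z ∈ ot g h S R q s0 := hop.mem_nhds ((hZmem z0).1 hz0).1
    have e2 : ∀ᶠ z in 𝓝 z0, dfam g h s0 z = 0 → z = z0 := by
      have hA := (dfam_diff hg hh s0).analyticAt z0
      rcases hA.eventually_eq_zero_or_eventually_ne_zero with h1 | h1
      · exact absurd (analyticOrderAt_eq_top.2 h1) (ord_ne_top (dfam_diff hg hh s0) (hnd s0 hs0) z0)
      · rw [eventually_nhdsWithin_iff] at h1
        filter_upwards [h1] with z hz h0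
        by_contra hne
        exact hz hne h0
    obtain ⟨ε, hε, hball⟩ := Metric.eventually_nhds_iff_ball.1 (e1.and e2)
    filter_upwards [Ioo_mem_nhdsGT hε] with ρ hρ
    have hsub : ∀ z ∈ closedBall z0 ρ, z ∈ ball z0 ε := by
      intro z hz
      rw [mem_closedBall] at hz
      rw [mem_ball]
      exact lt_of_le_of_lt hz hρ.2
    exact ⟨fun z hz => (hball z (hsub z hz)).1, fun z hz => (hball z (hsub z hz)).2⟩
  have hsep : ∀ᶠ ρ in 𝓝[>] (0:ℝ), ∀ z0 ∈ Z, ∀ z1 ∈ Z, z0 ≠ z1 →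
      Disjoint (ball z0 ρ) (ball z1 ρ) := by
    rw [Filter.eventually_all_finset]
    intro z0 _
    rw [Filter.eventually_all_finset]
    intro z1 _
    by_cases hne : z0 = z1
    · exact Filter.Eventually.of_forall (fun ρ h => absurd hne h)
    · have hd : 0 < dist z0 z1 / 2 := by
        have := dist_pos.2 hne
        linarith
      filter_upwards [Ioo_mem_nhdsGT hd] with ρ hρ _
      apply ball_disjoint_ball
      linarith [hρ.2]
  obtain ⟨ρ, ⟨hρ1, hρ2⟩, hρ0⟩ := ((hρ.and hsep).and self_mem_nhdsWithin).exists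
  replace hρ0 : 0 < ρ := hρ0
  -- Hurwitz
  have hHW : ∀ᶠ s in 𝓝 s0, ∀ z0 ∈ Z,
      cnt (dfam g h s) (ball z0 ρ) = cnt (dfam g h s0) (ball z0 ρ) := by
    rw [Filter.eventually_all_finset]
    intro z0 hz0
    obtain ⟨hsubO, huniq⟩ := hρ1 z0 hz0
    obtain ⟨δ, hδ, hδ'⟩ := HW (dfam g h s0) (dfam_diff hg hh s0) z0 ρ hρ0 (by
      intro z hz h0
      have := huniq z (sphere_subset_closedBall hz) h0
      rw [this, mem_sphere, dist_self] at hz
      exact hρ0.ne hz)
    have hpos : 0 < δ / M' := div_pos hδ hM0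
    filter_upwards [Metric.ball_mem_nhds s0 hpos] with s hs
    apply hδ' _ (dfam_diff hg hh s)
    intro z hz
    have h1 : dfam g h s z - dfam g h s0 z = ((s - s0 : ℝ) : ℂ) * deriv h z := by
      unfold dfam
      push_cast
      ring
    rw [h1, norm_mul, Complex.norm_real, Real.norm_eq_abs]
    rw [mem_ball, Real.dist_eq] at hs
    calc |s - s0| * ‖deriv h z‖ ≤ |s - s0| * M' :=
          mul_le_mul_of_nonneg_left (hM z (hKK (hotK s0 hs0 (hsubO hz)))) (abs_nonneg _)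
      _ < δ / M' * M' := mul_lt_mul_of_pos_right hs hM0
      _ = δ := div_mul_cancel₀ _ hM0.ne'
  -- outside of the discs
  have hout : ∀ᶠ s in 𝓝 s0, ∀ z ∈ K \ ⋃ z0 ∈ Z, ball z0 ρ,
      ¬ (dfam g h s z = 0 ∧ z ∈ ot g h S R q s ∧ s0 ≤ s ∧ s ≤ 1) := by
    have hK1 : IsCompact (K \ ⋃ z0 ∈ Z, ball z0 ρ) := by
      apply hK.diff
      exact isOpen_biUnion (fun z0 _ => isOpen_ball)
    apply hK1.eventually_forall_of_forall_eventually
    intro z1 hz1
    by_cases h0 : dfam g h s0 z1 = 0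
    · have hz1O : z1 ∉ ot g h S R q s0 := by
        intro hmem
        apply hz1.2
        simp only [Set.mem_iUnion]
        exact ⟨z1, (hZmem z1).2 ⟨hmem, h0⟩, mem_ball_self hρ0⟩
      have hne : ∃ z, deriv (fam g h s0) z ≠ 0 := by
        rw [deriv_fam hg hh]
        exact hnd s0 hs0
      have e1 := seg_le_deriv (fam_diff hg hh s0) hne z1 (η := q / M') (by positivity)
      rw [deriv_fam hg hh] at e1
      have e2 : ∀ᶠ z in 𝓝 z1, z ∈ closedBall (0:ℂ) (M + 1) := by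
        have : closedBall (0:ℂ) (M + 1) ∈ 𝓝 z1 := by
          refine mem_of_superset (ball_mem_nhds z1 one_pos) fun z hz => ?_
          have hz1' : ‖z1‖ ≤ M := by simpa [hKdef] using hz1.1
          rw [mem_ball, dist_eq_norm] at hz
          rw [mem_closedBall_zero_iff]
          calc ‖z‖ = ‖(z - z1) + z1‖ := by rw [sub_add_cancel]
            _ ≤ ‖z - z1‖ + ‖z1‖ := norm_add_le _ _
            _ ≤ M + 1 := by linarith
        exact this
      have e3 : ∀ᶠ p : ℝ × ℂ in 𝓝 (s0, z1), (∀ w ∈ segment ℝ z1 p.2,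
          ‖fam g h s0 w - fam g h s0 p.2‖ ≤ q / M' * ‖dfam g h s0 p.2‖) ∧
          p.2 ∈ closedBall (0:ℂ) (M + 1) :=
        (continuous_snd.tendsto (s0, z1)).eventually (e1.and e2)
      filter_upwards [e3] with p hp
      rintro ⟨k0, k1, k2, k3⟩
      apply hz1O
      obtain ⟨x, hx, hzx⟩ := mem_iUnion₂.1 k1
      refine mem_iUnion₂.2 ⟨x, hx, ?_⟩
      have hW := ot_strict hg hh hR hq (hhq x hx) hs0.1 k2 k3 (v := p.2)
      have hρs : 0 < R + 2 * q * (1 - p.1) := by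
        have : 0 ≤ 2 * q * (1 - p.1) := by
          have : 0 ≤ 1 - p.1 := by linarith
          positivity
        linarith
      have hcon : IsPreconnected (cmp (fam g h p.1) (x : ℂ) (R + 2 * q * (1 - p.1)) ∪
          segment ℝ z1 p.2) :=
        IsPreconnected.union p.2 hzx (right_mem_segment ℝ z1 p.2) (cmp_preconn _ _ _)
          (convex_segment z1 p.2).isPreconnected
      have hd : ‖dfam g h s0 p.2‖ ≤ (p.1 - s0) * M' := by
        have : dfam g h p.1 p.2 - dfam g h s0 p.2 = ((p.1 - s0 : ℝ) : ℂ) * deriv h p.2 := by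
          unfold dfam
          push_cast
          ring
        rw [k0, zero_sub] at this
        rw [← norm_neg, this, norm_mul, Complex.norm_real, Real.norm_eq_abs,
          abs_of_nonneg (by linarith)]
        exact mul_le_mul_of_nonneg_left (hM _ hp.2) (by linarith)
      have hsub : (cmp (fam g h p.1) (x : ℂ) (R + 2 * q * (1 - p.1)) ∪ segment ℝ z1 p.2) ⊆
          cmp (fam g h s0) (x : ℂ) (R + 2 * q * (1 - s0)) := by
        refine cmp_max hcon (Or.inl (mem_cmp _ _ hρs)) ?_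
        rintro v (hv | hv)
        · have := ot_strict hg hh hR hq (hhq x hx) hs0.1 k2 k3 hv
          nlinarith
        · have h1 := hp.1 v hv
          have h2 := hW hzx
          have h3 : q / M' * ‖dfam g h s0 p.2‖ ≤ q * (p.1 - s0) := by
            calc q / M' * ‖dfam g h s0 p.2‖ ≤ q / M' * ((p.1 - s0) * M') :=
                  mul_le_mul_of_nonneg_left hd (by positivity)
              _ = q * (p.1 - s0) := by field_simp
          have h4 := norm_sub_le_norm_sub_add_norm_sub (fam g h s0 v) (fam g h s0 p.2)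
            (fam g h s0 (x : ℂ))
          linarith
      exact hsub (Or.inr (left_mem_segment ℝ z1 p.2))
    · have hc : ContinuousAt (fun p : ℝ × ℂ => dfam g h p.1 p.2) (s0, z1) :=
        (dfam_cont hg hh).continuousAt
      filter_upwards [hc.eventually_ne h0] with p hp
      exact fun k => hp k.1
  -- counts
  have hsub0 : ∀ z0 ∈ Z, ball z0 ρ ⊆ ot g h S R q s0 := fun z0 hz0 =>
    ball_subset_closedBall.trans (hρ1 z0 hz0).1
  have hbu : ∀ s ∈ Icc (0:ℝ) 1, cnt (dfam g h s) (⋃ z0 ∈ Z, ball z0 ρ) =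
      ∑ z0 ∈ Z, cnt (dfam g h s) (ball z0 ρ) := by
    intro s hs
    apply cnt_biUnion hρ2
    intro z0 hz0
    apply (hfinK s hs).subset
    rintro z ⟨h1, h2⟩
    exact ⟨hotK s0 hs0 (hsub0 z0 hz0 h1), h2⟩
  have hcount0 : cnt (dfam g h s0) (ot g h S R q s0) =
      ∑ z0 ∈ Z, cnt (dfam g h s0) (ball z0 ρ) := by
    rw [cnt_eq_toFinset hZfin, ← hZ]
    apply Finset.sum_congr rfl
    intro z0 hz0
    symm
    apply cnt_ball_single (mem_ball_self hρ0)
    intro z hz h0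
    exact (hρ1 z0 hz0).2 z (ball_subset_closedBall hz) h0
  filter_upwards [hHW, hout] with s hs1 hs2 hs
  have hcount : cnt (dfam g h s) (⋃ z0 ∈ Z, ball z0 ρ) =
      cnt (dfam g h s0) (ot g h S R q s0) := by
    rw [hbu s hs, hcount0]
    exact Finset.sum_congr rfl hs1
  constructor
  · intro hle
    rw [← hcount]
    apply cnt_mono
    · intro z hz h0
      simp only [Set.mem_iUnion] at hz
      obtain ⟨z0, hz0, hz⟩ := hz
      exact ot_anti hg hh hR hq hhq hs.1 hle hs0.2 (hsub0 z0 hz0 hz)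
    · exact hfinO s hs
  · intro hle
    rw [← hcount]
    apply cnt_mono
    · intro z hz h0
      by_contra hnot
      exact hs2 z ⟨hotK s hs hz, hnot⟩ ⟨h0, hz, hle, hs.2⟩
    · apply (hfinK s hs).subset
      rintro z ⟨h1, h2⟩
      simp only [Set.mem_iUnion] at h1
      obtain ⟨z0, hz0, h1⟩ := h1
      exact ⟨hotK s0 hs0 (hsub0 z0 hz0 h1), h2⟩

/-- conversion of the two counts -/
theorem cz_eq_cnt {F : ℂ → ℂ} (hF : Differentiable ℂ F) (hne : ∃ z, F z ≠ 0) {T : Set ℂ}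
    (hfin : {z ∈ T | F z = 0}.Finite) : cz F T = (cnt F T : ENNReal) := by
  classical
  have h1 : ∀ z : ℂ, od F z = (analyticOrderNatAt F z : ENNReal) := by
    intro z
    unfold od
    rw [← Nat.cast_analyticOrderNatAt (ord_ne_top hF hne z)]
    simp
  rw [cnt_eq_toFinset hfin, cz_eq_indicator, tsum_eq_sum (s := hfin.toFinset)]
  · push_cast
    refine Finset.sum_congr rfl fun z hz => ?_
    rw [Set.Finite.mem_toFinset] at hz
    rw [indicator_of_mem hz.1, h1]
  · intro z hz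
    rw [Set.Finite.mem_toFinset] at hz
    by_cases hT : z ∈ T
    · rw [indicator_of_mem hT]
      exact od_zero fun h0 => hz ⟨hT, h0⟩
    · rw [indicator_of_notMem hT]

theorem ot_one (g h : ℂ → ℂ) (S : Set ℝ) (R q : ℝ) :
    ot g h S R q 1 = ⋃ x ∈ S, cmp (fun z => g z + h z) (x : ℂ) R := by
  unfold ot
  have h1 : fam g h 1 = fun z => g z + h z := by
    ext z
    unfold fam
    simp
  have h2 : R + 2 * q * (1 - 1) = R := by ring
  rw [h1, h2]

theorem ot_zero (g h : ℂ → ℂ) (S : Set ℝ) (R q : ℝ) :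
    ot g h S R q 0 = ⋃ x ∈ S, cmp g (x : ℂ) (R + 2 * q) := by
  unfold ot
  have h2 : R + 2 * q * (1 - 0) = R + 2 * q := by ring
  rw [fam_zero, h2]

/-- critical points under a small perturbation -/
theorem mot_of_hurwitz (HW : HurwitzStatement) (hg : Differentiable ℂ g)
    (hh : Differentiable ℂ h) (hR : 0 < R) (hq : 0 < q)
    (hhq : ∀ x ∈ S, ∀ z ∈ cmp g (x : ℂ) (R + 2 * q), ‖h z - h x‖ ≤ q)
    (hb : ∀ x ∈ S, cmp g (x : ℂ) (R + 2 * q) ⊆ closedBall 0 M) :
    cz (deriv fun z => g z + h z) (⋃ x ∈ S, cmp (fun z => g z + h z) (x : ℂ) R) ≤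
      cz (deriv g) (⋃ x ∈ S, cmp g (x : ℂ) (R + 2 * q)) := by
  rcases S.eq_empty_or_nonempty with rfl | ⟨x0, hx0⟩
  · simp [cz_empty]
  have hnd : ∀ s ∈ Icc (0:ℝ) 1, ∃ z, dfam g h s z ≠ 0 := by
    intro s hs
    by_contra hcon
    push Not at hcon
    have hρ : 0 < R + 2 * q * (1 - s) := by
      have : 0 ≤ 2 * q * (1 - s) := by
        have : 0 ≤ 1 - s := by linarith [hs.2]
        positivity
      linarith
    have hconst : ∀ z, fam g h s z = fam g h s (x0 : ℂ) := fun z =>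
      is_const_of_deriv_eq_zero (fam_diff hg hh s) (fun w => by rw [deriv_fam hg hh]; exact hcon w) z _
    have h1 : (univ : Set ℂ) ⊆ cmp (fam g h s) (x0 : ℂ) (R + 2 * q * (1 - s)) :=
      cmp_max isPreconnected_univ (mem_univ _) fun u _ => by
        rw [hconst u, sub_self, norm_zero]
        exact hρ
    have h2 := (h1.trans (ot_sub1 hg hh hR hq (hhq x0 hx0) hs.1 hs.2)).trans (hb x0 hx0)
    have h3 : ((|M| + 1 : ℝ) : ℂ) ∈ closedBall (0:ℂ) M := h2 (mem_univ _)
    rw [mem_closedBall_zero_iff, Complex.norm_real, Real.norm_eq_abs,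
      abs_of_nonneg (by positivity)] at h3
    have := le_abs_self M
    linarith
  have hstep := ot_step HW hg hh hR hq hhq hb hnd
  set n : ℝ → ℕ := fun s => cnt (dfam g h s) (ot g h S R q s) with hn
  have hfin : ∀ s ∈ Icc (0:ℝ) 1, {z ∈ ot g h S R q s | dfam g h s z = 0}.Finite := fun s hs =>
    (finite_zeros (dfam_diff hg hh s) (hnd s hs) (isCompact_closedBall 0 M)).subset fun z hz =>
      ⟨(iUnion₂_subset fun x hx => (ot_sub1 hg hh hR hq (hhq x hx) hs.1 hs.2).trans (hb x hx) :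
        ot g h S R q s ⊆ closedBall 0 M) hz.1, hz.2⟩
  have e0 : cz (deriv g) (⋃ x ∈ S, cmp g (x : ℂ) (R + 2 * q)) = n 0 := by
    have h1 : dfam g h 0 = deriv g := by
      ext z; unfold dfam; simp
    rw [hn]
    simp only
    rw [← ot_zero g h S R q, ← h1]
    exact cz_eq_cnt (dfam_diff hg hh 0) (hnd 0 (by simp)) (hfin 0 (by simp))
  have e1 : cz (deriv fun z => g z + h z) (⋃ x ∈ S, cmp (fun z => g z + h z) (x : ℂ) R) = n 1 := by
    have h1 : dfam g h 1 = deriv (fun z => g z + h z) := by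
      rw [← deriv_fam hg hh]
      congr 1
      ext z; unfold fam; simp
    rw [hn]
    simp only
    rw [← ot_one g h S R q, ← h1]
    exact cz_eq_cnt (dfam_diff hg hh 1) (hnd 1 (by simp)) (hfin 1 (by simp))
  rw [e0, e1]
  have key : n 1 ≤ n 0 := by
    have hclosed : IsClosed ({s | ∀ t ∈ Icc (0:ℝ) s, n t ≤ n 0} ∩ Icc (0:ℝ) 1) := by
      rw [← isOpen_compl_iff, isOpen_iff_mem_nhds]
      intro s hs
      by_cases hsI : s ∈ Icc (0:ℝ) 1
      · have hlt : ¬ ∀ t ∈ Icc (0:ℝ) s, n t ≤ n 0 := fun h => hs ⟨h, hsI⟩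
        push Not at hlt
        obtain ⟨t, ht, hnt⟩ := hlt
        rcases eq_or_lt_of_le ht.2 with hts | hts
        · -- the bad time is `s` itself: the times slightly before are bad, too
          subst hts
          filter_upwards [hstep t hsI] with s hs1 hs2
          rcases le_or_gt t s with hle | hlt
          · exact absurd (hs2.1 t ⟨hsI.1, hle⟩) (not_le.2 hnt)
          · have h1 := (hs1 hs2.2).1 hlt.le
            have h2 := hs2.1 s ⟨hs2.2.1, le_rfl⟩
            exact absurd (h1.trans h2) (not_le.2 hnt)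
        · filter_upwards [Ioi_mem_nhds hts] with s' hs' hmem
          exact absurd (hmem.1 t ⟨ht.1, le_of_lt hs'⟩) (not_le.2 hnt)
      · filter_upwards [isClosed_Icc.isOpen_compl.mem_nhds hsI] with t ht htm
        exact ht htm.2
    have h1 := hclosed.mem_of_ge_of_forall_exists_gt (a := 0) (b := 1)
      (s := {s | ∀ t ∈ Icc (0:ℝ) s, n t ≤ n 0}) (by
        intro t ht
        have : t = 0 := le_antisymm ht.2 ht.1
        rw [this]) (by norm_num) (by
      intro s hs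
      have h1 := hstep s ⟨hs.2.1, hs.2.2.le⟩
      obtain ⟨ε, hε, hball⟩ := Metric.eventually_nhds_iff_ball.1 h1
      set s' := min (s + ε / 2) 1 with hs'
      have k1 : s < s' := lt_min (by linarith) hs.2.2
      refine ⟨s', fun t ht => ?_, k1, min_le_right _ _⟩
      rcases le_or_gt t s with hle | hlt
      · exact hs.1 t ⟨ht.1, hle⟩
      · have ht1 : t ≤ 1 := ht.2.trans (min_le_right _ _)
        have ht2 : t ≤ s + ε / 2 := ht.2.trans (min_le_left _ _)
        have hb : t ∈ ball s ε := by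
          rw [mem_ball, Real.dist_eq, abs_of_nonneg (by linarith)]
          linarith
        exact ((hball t hb ⟨ht.1, ht1⟩).2 hlt.le).trans (hs.1 s ⟨hs.2.1, le_rfl⟩))
    exact h1 1 (by simp)
  exact_mod_cast key

end mot

end Pool.Agent.Helper82.EN
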